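import Mathlib
import Pool.Agent.H94.NC.GDefs

/-!
# Mat : dg algebras of matrices with entries in prescribed submodules

MP_eadf0f_ag, every field of characteristic `p`. `K` is a commutative `k`-algebra, `ι` a finite index set with a
degree `deg : ι → ℤ`, `e` a matrix over `k` of degree one with `e * e = 0` and `S i j` a family of subspaces of `K`.
The elements of the dg algebra `matZ d` are the matrices `x` with `x i j ∈ S i j`; the entry `(i, j)` has degree
`deg j - deg i` and `D x = e * x - E x * e`.
-/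

set_option autoImplicit false

open NC

noncomputable section

namespace EK

/-- data for a dg algebra of matrices -/
structure MatDat (k : Type) [Field k] (K : Type) [CommRing K] [Algebra k K]
    (ι : Type) [Fintype ι] [DecidableEq ι] where
  deg : ι → ℤ
  e : Matrix ι ι k
  e_deg : ∀ i j, e i j ≠ 0 → deg j = deg i + 1
  e_sq : e * e = 0
  S : ι → ι → Submodule k K
  one_mem : ∀ i, (1 : K) ∈ S i i
  mul_mem : ∀ i j l x y, x ∈ S i j → y ∈ S j l → x * y ∈ S i l
  e_mul : ∀ i j l x, e i j ≠ 0 → x ∈ S j l → x ∈ S i l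
  mul_e : ∀ i j l x, e j l ≠ 0 → x ∈ S i j → x ∈ S i l

variable {k : Type} [Field k] {K : Type} [CommRing K] [Algebra k K]
  {ι : Type} [Fintype ι] [DecidableEq ι]

namespace MatDat

variable (d : MatDat k K ι)

/-- the matrix `e` over `K` -/
def eK : Matrix ι ι K := d.e.map (algebraMap k K)

/-- the matrices with entries in `S` -/
def mats : Submodule k (Matrix ι ι K) where
  carrier := {x | ∀ i j, x i j ∈ d.S i j}
  add_mem' := fun ha hb i j => (d.S i j).add_mem (ha i j) (hb i j)
  zero_mem' := fun i j => (d.S i j).zero_mem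
  smul_mem' := fun c _ ha i j => (d.S i j).smul_mem c (ha i j)

theorem mem_mats (x : Matrix ι ι K) : x ∈ d.mats ↔ ∀ i j, x i j ∈ d.S i j := Iff.rfl

/-- the projection on the even part -/
def pM : Matrix ι ι K →ₗ[k] Matrix ι ι K where
  toFun x := fun i j => if Even (d.deg j - d.deg i) then x i j else 0
  map_add' x y := by
    funext i j
    change (if _ then x i j + y i j else 0) = (if _ then x i j else 0) + (if _ then y i j else 0)
    split_ifs <;> simp
  map_smul' c x := by
    funext i j
    change (if _ then c • x i j else 0) = c • (if _ then x i j else 0)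
    split_ifs <;> simp

theorem pM_apply (x : Matrix ι ι K) (i j : ι) :
    d.pM x i j = if Even (d.deg j - d.deg i) then x i j else 0 := rfl

/-- the parity automorphism -/
def eM : Matrix ι ι K →ₗ[k] Matrix ι ι K := d.pM + d.pM - LinearMap.id

theorem eM_apply (x : Matrix ι ι K) (i j : ι) :
    d.eM x i j = (if Even (d.deg j - d.deg i) then 1 else -1) * x i j := by
  change d.pM x i j + d.pM x i j - x i j = _
  rw [pM_apply]
  split_ifs <;> ring

/-- the differential -/
def dM : Matrix ι ι K →ₗ[k] Matrix ι ι K where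
  toFun x := d.eK * x - d.eM x * d.eK
  map_add' x y := by rw [map_add, mul_add, add_mul]; abel
  map_smul' c x := by
    rw [map_smul, RingHom.id_apply, smul_sub, Matrix.mul_smul, Matrix.smul_mul]

theorem dM_apply (x : Matrix ι ι K) : d.dM x = d.eK * x - d.eM x * d.eK := rfl

theorem eK_sq : d.eK * d.eK = 0 := by
  have h : d.e.map (algebraMap k K) * d.e.map (algebraMap k K) = (d.e * d.e).map (algebraMap k K) :=
    (Matrix.map_mul (f := algebraMap k K)).symm
  rw [eK, h, d.e_sq]
  exact Matrix.map_zero _ (map_zero _)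

theorem eK_apply (i j : ι) : d.eK i j = algebraMap k K (d.e i j) := rfl

theorem eM_mul (x y : Matrix ι ι K) : d.eM (x * y) = d.eM x * d.eM y := by
  ext i j
  rw [eM_apply, Matrix.mul_apply, Matrix.mul_apply, Finset.mul_sum]
  refine Finset.sum_congr rfl (fun l _ => ?_)
  rw [eM_apply, eM_apply]
  have h : ((if Even (d.deg j - d.deg i) then 1 else -1 : K)) =
      (if Even (d.deg l - d.deg i) then 1 else -1) * (if Even (d.deg j - d.deg l) then 1 else -1) := by
    have e1 : Even (d.deg j - d.deg i) ↔ (Even (d.deg l - d.deg i) ↔ Even (d.deg j - d.deg l)) := by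
      rw [← Int.even_add, show (d.deg l - d.deg i) + (d.deg j - d.deg l) = d.deg j - d.deg i by ring]
    by_cases h1 : Even (d.deg l - d.deg i) <;> by_cases h2 : Even (d.deg j - d.deg l) <;>
      simp only [e1, h1, h2] <;> simp
  rw [h]
  ring

theorem eM_eM (x : Matrix ι ι K) : d.eM (d.eM x) = x := by
  ext i j
  rw [eM_apply, eM_apply]
  split_ifs <;> ring

theorem eM_eK : d.eM d.eK = - d.eK := by
  ext i j
  rw [eM_apply, Matrix.neg_apply, eK_apply]
  by_cases h : d.e i j = 0
  · rw [h, map_zero, mul_zero, neg_zero]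
  · have h1 := d.e_deg i j h
    have h2 : ¬ Even (d.deg j - d.deg i) := by
      rw [h1]
      simp
    rw [if_neg h2]
    ring

theorem dM_dM (x : Matrix ι ι K) : d.dM (d.dM x) = 0 := by
  rw [dM_apply, dM_apply, map_sub, eM_mul, eM_mul, eM_eM, eM_eK]
  have h := d.eK_sq
  have h1 : d.eK * (d.eK * x - d.eM x * d.eK) = - (d.eK * d.eM x * d.eK) := by
    rw [mul_sub, ← mul_assoc, h, zero_mul, zero_sub, mul_assoc]
  have h2 : (-d.eK * d.eM x - x * -d.eK) * d.eK = - (d.eK * d.eM x * d.eK) := by
    rw [sub_mul, mul_neg, neg_mul, neg_mul, neg_mul, sub_neg_eq_add, mul_assoc x, h, mul_zero,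
      add_zero]
  rw [h1, h2, sub_self]

theorem pM_pM (x : Matrix ι ι K) : d.pM (d.pM x) = d.pM x := by
  ext i j
  rw [pM_apply, pM_apply]
  split_ifs <;> rfl

theorem dM_mem {x : Matrix ι ι K} (hx : x ∈ d.mats) : d.dM x ∈ d.mats := by
  intro i l
  rw [dM_apply, Matrix.sub_apply, Matrix.mul_apply, Matrix.mul_apply]
  refine (d.S i l).sub_mem (Submodule.sum_mem _ fun j _ => ?_) (Submodule.sum_mem _ fun j _ => ?_)
  · rw [eK_apply]
    by_cases h : d.e i j = 0
    · rw [h, map_zero, zero_mul]
      exact (d.S i l).zero_mem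
    · rw [← Algebra.smul_def]
      exact (d.S i l).smul_mem _ (d.e_mul i j l _ h (hx j l))
  · rw [eK_apply]
    by_cases h : d.e j l = 0
    · rw [h, map_zero, mul_zero]
      exact (d.S i l).zero_mem
    · rw [mul_comm, ← Algebra.smul_def, eM_apply]
      refine (d.S i l).smul_mem _ (d.mul_e i j l _ h ?_)
      split_ifs
      · rw [one_mul]
        exact hx i j
      · rw [neg_one_mul]
        exact (d.S i j).neg_mem (hx i j)

theorem pM_mem {x : Matrix ι ι K} (hx : x ∈ d.mats) : d.pM x ∈ d.mats := by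
  intro i j
  rw [pM_apply]
  split_ifs
  · exact hx i j
  · exact (d.S i j).zero_mem

theorem one_mem_mats : (1 : Matrix ι ι K) ∈ d.mats := by
  intro i j
  by_cases h : i = j
  · subst h
    rw [Matrix.one_apply_eq]
    exact d.one_mem i
  · rw [Matrix.one_apply_ne h]
    exact (d.S i j).zero_mem

theorem mul_mem_mats {x y : Matrix ι ι K} (hx : x ∈ d.mats) (hy : y ∈ d.mats) :
    x * y ∈ d.mats := by
  intro i l
  rw [Matrix.mul_apply]
  exact Submodule.sum_mem _ fun j _ => d.mul_mem i j l _ _ (hx i j) (hy j l)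

theorem pM_eq (x : Matrix ι ι K) : d.eM x = d.pM x + d.pM x - x := rfl

theorem dM_pM (x : Matrix ι ι K) : d.dM (d.pM x) = d.dM x - d.pM (d.dM x) := by
  ext i l
  rw [dM_apply, dM_apply, Matrix.sub_apply, Matrix.sub_apply, pM_apply, Matrix.sub_apply,
    Matrix.mul_apply, Matrix.mul_apply, Matrix.mul_apply, Matrix.mul_apply]
  have key : ∀ j, d.eK i j * d.pM x j l =
      if Even (d.deg l - d.deg i) then 0 else d.eK i j * x j l := by
    intro j
    rw [pM_apply, eK_apply]
    by_cases h : d.e i j = 0
    · rw [h]; simp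
    · have h1 := d.e_deg i j h
      have h2 : Even (d.deg l - d.deg j) ↔ ¬ Even (d.deg l - d.deg i) := by
        rw [h1, show d.deg l - (d.deg i + 1) = d.deg l - d.deg i - 1 by ring, Int.even_sub_one]
      by_cases h3 : Even (d.deg l - d.deg i)
      · rw [if_neg (fun h => (h2.1 h) h3), if_pos h3, mul_zero]
      · rw [if_pos (h2.2 h3), if_neg h3]
  have key2 : ∀ j, d.eM (d.pM x) i j * d.eK j l =
      if Even (d.deg l - d.deg i) then 0 else d.eM x i j * d.eK j l := by
    intro j
    rw [eM_apply, eM_apply, pM_apply, eK_apply]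
    by_cases h : d.e j l = 0
    · rw [h]; simp
    · have h1 := d.e_deg j l h
      have h2 : Even (d.deg j - d.deg i) ↔ ¬ Even (d.deg l - d.deg i) := by
        rw [h1, show d.deg j + 1 - d.deg i = d.deg j - d.deg i + 1 by ring, Int.even_add_one,
          not_not]
      by_cases h3 : Even (d.deg l - d.deg i)
      · have h4 : ¬ Even (d.deg j - d.deg i) := fun h => (h2.1 h) h3
        simp only [h3, h4, if_true, if_false, mul_zero, zero_mul]
      · have h4 : Even (d.deg j - d.deg i) := h2.2 h3
        simp only [h3, h4, if_true, if_false]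
  rw [Finset.sum_congr rfl (fun j _ => key j), Finset.sum_congr rfl (fun j _ => key2 j)]
  by_cases h3 : Even (d.deg l - d.deg i)
  · simp [h3]
  · simp [h3]

theorem pM_mul (x y : Matrix ι ι K) :
    d.pM (x * y) = d.pM x * d.pM y + (x - d.pM x) * (y - d.pM y) := by
  ext i j
  rw [pM_apply, Matrix.add_apply, Matrix.mul_apply, Matrix.mul_apply, Matrix.mul_apply,
    ← Finset.sum_add_distrib]
  have key : ∀ l, d.pM x i l * d.pM y l j + (x - d.pM x) i l * (y - d.pM y) l j =
      if Even (d.deg j - d.deg i) then x i l * y l j else 0 := by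
    intro l
    rw [Matrix.sub_apply, Matrix.sub_apply, pM_apply, pM_apply]
    have e1 : Even (d.deg j - d.deg i) ↔ (Even (d.deg l - d.deg i) ↔ Even (d.deg j - d.deg l)) := by
      rw [← Int.even_add, show (d.deg l - d.deg i) + (d.deg j - d.deg l) = d.deg j - d.deg i by ring]
    by_cases h1 : Even (d.deg l - d.deg i) <;> by_cases h2 : Even (d.deg j - d.deg l) <;>
      simp only [e1, h1, h2] <;> simp
  rw [Finset.sum_congr rfl (fun l _ => key l)]
  split_ifs
  · rfl
  · exact Finset.sum_const_zero.symm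

theorem dM_mul (x y : Matrix ι ι K) : d.dM (x * y) = d.dM x * y + d.eM x * d.dM y := by
  rw [dM_apply, dM_apply, dM_apply, eM_mul]
  noncomm_ring

/-- the entries of degree `n` -/
def grM (n : ℤ) : Submodule k (Matrix ι ι K) where
  carrier := {x | ∀ i j, d.deg j - d.deg i ≠ n → x i j = 0}
  add_mem' := fun {a b} ha hb i j h => by
    change a i j + b i j = 0
    rw [ha i j h, hb i j h, add_zero]
  zero_mem' := fun _ _ _ => rfl
  smul_mem' := fun c a ha i j h => by
    change c • a i j = 0
    rw [ha i j h, smul_zero]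

theorem mem_grM (n : ℤ) (x : Matrix ι ι K) :
    x ∈ d.grM n ↔ ∀ i j, d.deg j - d.deg i ≠ n → x i j = 0 := Iff.rfl

theorem dM_grM {n : ℤ} {x : Matrix ι ι K} (hx : x ∈ d.grM n) : d.dM x ∈ d.grM (n + 1) := by
  intro i l h
  rw [dM_apply, Matrix.sub_apply, Matrix.mul_apply, Matrix.mul_apply]
  have h1 : ∀ j, d.eK i j * x j l = 0 := by
    intro j
    rw [eK_apply]
    by_cases he : d.e i j = 0
    · rw [he, map_zero, zero_mul]
    · have h2 := d.e_deg i j he
      rw [hx j l (by omega), mul_zero]
  have h2 : ∀ j, d.eM x i j * d.eK j l = 0 := by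
    intro j
    rw [eK_apply]
    by_cases he : d.e j l = 0
    · rw [he, map_zero, mul_zero]
    · have h2 := d.e_deg j l he
      rw [eM_apply, hx i j (by omega), mul_zero, zero_mul]
  rw [Finset.sum_eq_zero (fun j _ => h1 j), Finset.sum_eq_zero (fun j _ => h2 j), sub_zero]

theorem mul_grM {m n : ℤ} {x y : Matrix ι ι K} (hx : x ∈ d.grM m) (hy : y ∈ d.grM n) :
    x * y ∈ d.grM (m + n) := by
  intro i l h
  rw [Matrix.mul_apply]
  refine Finset.sum_eq_zero (fun j _ => ?_)
  by_cases h1 : d.deg j - d.deg i = m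
  · rw [hy j l (by omega), mul_zero]
  · rw [hx i j h1, zero_mul]

theorem one_grM : (1 : Matrix ι ι K) ∈ d.grM 0 := by
  intro i j h
  rw [Matrix.one_apply_ne]
  rintro rfl
  exact h (sub_self _)

/-- the component of degree `n` -/
def cpt (n : ℤ) : Matrix ι ι K →ₗ[k] Matrix ι ι K where
  toFun x := fun i j => if d.deg j - d.deg i = n then x i j else 0
  map_add' x y := by
    funext i j
    change (if _ then x i j + y i j else 0) = (if _ then x i j else 0) + (if _ then y i j else 0)
    split_ifs <;> simp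
  map_smul' c x := by
    funext i j
    change (if _ then c • x i j else 0) = c • (if _ then x i j else 0)
    split_ifs <;> simp

theorem cpt_apply (n : ℤ) (x : Matrix ι ι K) (i j : ι) :
    d.cpt n x i j = if d.deg j - d.deg i = n then x i j else 0 := rfl

theorem cpt_mem (n : ℤ) {x : Matrix ι ι K} (hx : x ∈ d.mats) : d.cpt n x ∈ d.mats := by
  intro i j
  rw [cpt_apply]
  split_ifs
  · exact hx i j
  · exact (d.S i j).zero_mem

/-- the underlying type of the dg algebra -/
abbrev V : Type := ↥d.mats

/-- the elements of degree `n` -/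
def gr (n : ℤ) : Submodule k d.V := (d.grM n).comap d.mats.subtype

theorem mem_gr (n : ℤ) (x : d.V) : x ∈ d.gr n ↔ (x : Matrix ι ι K) ∈ d.grM n := Iff.rfl

theorem pM_gr {n : ℤ} {x : Matrix ι ι K} (hx : x ∈ d.grM n) :
    d.pM x = if Even n then x else 0 := by
  ext i j
  rw [pM_apply]
  by_cases h : d.deg j - d.deg i = n
  · rw [h]
    split_ifs <;> rfl
  · rw [hx i j h]
    split_ifs
    · exact (hx i j h).symm
    · rfl
    · exact (hx i j h).symm
    · rfl

theorem isInternal : DirectSum.IsInternal d.gr := by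
  rw [DirectSum.isInternal_submodule_iff_iSupIndep_and_iSup_eq_top]
  constructor
  · rw [iSupIndep_def]
    intro n
    rw [Submodule.disjoint_def]
    intro x hx hx'
    have key : (⨆ m, ⨆ (_ : m ≠ n), d.gr m) ≤
        Submodule.comap d.mats.subtype (LinearMap.ker (d.cpt n)) := by
      refine iSup_le fun m => iSup_le fun hm => ?_
      intro y hy
      change d.cpt n (y : Matrix ι ι K) = 0
      ext i j
      rw [cpt_apply]
      split_ifs with h
      · exact hy i j (by rw [h]; exact hm.symm)
      · rfl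
    have h1 : d.cpt n (x : Matrix ι ι K) = 0 := key hx'
    have h2 : d.cpt n (x : Matrix ι ι K) = x := by
      ext i j
      rw [cpt_apply]
      split_ifs with h
      · rfl
      · exact (hx i j h).symm
    exact Subtype.ext (h2.symm.trans h1)
  · rw [eq_top_iff]
    rintro x -
    have hs : x = ∑ n ∈ (Finset.univ.image fun p : ι × ι => d.deg p.2 - d.deg p.1),
        (⟨d.cpt n x, d.cpt_mem n x.2⟩ : d.V) := by
      refine Subtype.ext ?_
      rw [AddSubmonoidClass.coe_finsetSum]
      ext i j
      rw [Matrix.sum_apply, Finset.sum_eq_single (d.deg j - d.deg i)]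
      · change (x : Matrix ι ι K) i j = d.cpt _ (x : Matrix ι ι K) i j
        rw [cpt_apply, if_pos rfl]
      · intro n _ hn
        change d.cpt n (x : Matrix ι ι K) i j = 0
        rw [cpt_apply, if_neg (fun h => hn h.symm)]
      · intro h
        exact absurd (Finset.mem_image.2 ⟨(i, j), Finset.mem_univ _, rfl⟩) h
    rw [hs]
    refine Submodule.sum_mem _ fun n _ => Submodule.mem_iSup_of_mem n ?_
    intro i j h
    change d.cpt n (x : Matrix ι ι K) i j = 0
    rw [cpt_apply, if_neg h]

end MatDat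

/-- the dg algebra of the matrices with entries in `S` -/
def matZ (d : MatDat k K ι) : ZDGA k where
  V := d.V
  D := d.dM.restrict (fun _ hx => d.dM_mem hx)
  P := d.pM.restrict (fun _ hx => d.pM_mem hx)
  DD v := Subtype.ext (d.dM_dM v.1)
  PP v := Subtype.ext (d.pM_pM v.1)
  DP v := Subtype.ext (d.dM_pM v.1)
  mul := LinearMap.mk₂ k (fun x y => ⟨x.1 * y.1, d.mul_mem_mats x.2 y.2⟩)
    (fun x x' y => Subtype.ext (add_mul x.1 x'.1 y.1))
    (fun c x y => Subtype.ext (Matrix.smul_mul c x.1 y.1))
    (fun x y y' => Subtype.ext (mul_add x.1 y.1 y'.1))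
    (fun c x y => Subtype.ext (Matrix.mul_smul x.1 c y.1))
  one := ⟨1, d.one_mem_mats⟩
  one_mul' a := Subtype.ext (one_mul a.1)
  mul_one' a := Subtype.ext (mul_one a.1)
  mul_assoc' a b c := Subtype.ext (mul_assoc a.1 b.1 c.1)
  P_one := Subtype.ext (by
    change d.pM 1 = 1
    rw [d.pM_gr d.one_grM, if_pos Even.zero])
  P_mul a b := Subtype.ext (d.pM_mul a.1 b.1)
  D_mul a b := Subtype.ext (d.dM_mul a.1 b.1)
  gr := d.gr
  internal := d.isInternal
  P_gr i v hv := Subtype.ext (by
    have h : d.pM v.1 = if Even i then v.1 else 0 := d.pM_gr hv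
    change d.pM v.1 = _
    rw [h]
    split_ifs <;> rfl)
  D_gr i v hv := d.dM_grM hv
  mul_gr i j a ha b hb := d.mul_grM ha hb
  one_gr := d.one_grM

/-- the underlying matrix -/
def mv (d : MatDat k K ι) : (matZ d).V →ₗ[k] Matrix ι ι K := d.mats.subtype

/-- the element of the dg algebra with a given underlying matrix -/
def mk (d : MatDat k K ι) (x : Matrix ι ι K) (hx : ∀ i j, x i j ∈ d.S i j) : (matZ d).V := ⟨x, hx⟩

section

variable (d : MatDat k K ι)

@[simp] theorem mv_mk (x : Matrix ι ι K) (hx : ∀ i j, x i j ∈ d.S i j) : mv d (mk d x hx) = x := rfl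

theorem mv_mem (x : (matZ d).V) (i j : ι) : mv d x i j ∈ d.S i j := x.2 i j

theorem mv_injective : Function.Injective (mv d) := Subtype.val_injective

theorem m_ext {x y : (matZ d).V} (h : mv d x = mv d y) : x = y := mv_injective d h

@[simp] theorem mv_mul (x y : (matZ d).V) : mv d ((matZ d).mul x y) = mv d x * mv d y := rfl

@[simp] theorem mv_mul' (x y : (matZ d).V) : mv d (x * y) = mv d x * mv d y := rfl

@[simp] theorem mv_one : mv d (matZ d).one = 1 := rfl

@[simp] theorem mv_D (x : (matZ d).V) : mv d ((matZ d).D x) = d.dM (mv d x) := rfl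

@[simp] theorem mv_P (x : (matZ d).V) : mv d ((matZ d).P x) = d.pM (mv d x) := rfl

theorem mv_E (x : (matZ d).V) : mv d ((matZ d).toSD.E x) = d.eM (mv d x) := rfl

theorem mem_gr_iff (n : ℤ) (x : (matZ d).V) :
    x ∈ (matZ d).gr n ↔ ∀ i j, d.deg j - d.deg i ≠ n → mv d x i j = 0 := Iff.rfl

end

end EK
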