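import Mathlib
import Pool.Agent.H36.EK.Mat
import Pool.Agent.H36.NX.Pc

/-!
# Defs : the curve `E`, the surface `X`, the dg algebras `AE` and `AX`

`E : a^2 = (b^q - b) a + 1`, a double cover of the line with coordinate `b` (called `u` below). `CurR q k R` : `R` is the
ring of the overlap of the charts `b ≠ ∞` and `b ≠ 0`, with the `k`-basis `b^m a^i`, `m ∈ ℤ`, `i < 2`. The sections
over the chart `b ≠ ∞` are spanned by the `b^m a^i`, `m ≥ 0`, those of `O(n)` over the chart `b ≠ 0` (trivialised by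
`b^n`) by the `b^m a^i` with `m + q i ≤ n`.

`X → E × E` : `t^q - t = a ⊗ 1 - 1 ⊗ a`. `SurR C K` : `K` is the ring of the intersection of the four charts with the basis
`b^m a^i ⊗ b^n a^j · t^s`, `s < q`.
-/

set_option autoImplicit false

open NC

noncomputable section

namespace EK

open H36.NX

/-- the ring of the overlap of the two charts of the curve -/
structure CurR (q : ℕ) (k : Type) [Field k] (R : Type) [CommRing R] [Algebra k R] where
  hq : 2 ≤ q
  u : Rˣ
  a : R
  bas : Module.Basis (ℤ × Fin 2) k R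
  bas_eq : ∀ (m : ℤ) (i : Fin 2), bas (m, i) = ((u ^ m : Rˣ) : R) * a ^ (i : ℕ)
  rel : a ^ 2 = ((u : R) ^ q - (u : R)) * a + 1

variable {q : ℕ} {k : Type} [Field k] {R : Type} [CommRing R] [Algebra k R]
  {K : Type} [CommRing K] [Algebra k K]

namespace CurR

/-- functions on the chart `b ≠ ∞` -/
def X (C : CurR q k R) : Submodule k R :=
  Submodule.span k (Set.range fun p : ℕ × Fin 2 => C.bas ((p.1 : ℤ), p.2))

/-- sections of `O(n)` on the chart `b ≠ 0` -/
def Y (C : CurR q k R) (n : ℤ) : Submodule k R :=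
  Submodule.span k
    (Set.range fun p : ℕ × Fin 2 => C.bas (n - (q : ℤ) * ((p.2 : ℕ) : ℤ) - (p.1 : ℤ), p.2))

/-- the pieces -/
def pc (C : CurR q k R) (s : Pc) (n : ℤ) : Submodule k R :=
  match s with
  | Pc.X => C.X
  | Pc.Y => C.Y n
  | Pc.R => ⊤

/-- `h = a b^(1-q)` -/
def h (C : CurR q k R) : R := C.a * ((C.u ^ (1 - (q : ℤ)) : Rˣ) : R)

/-- `f_V = a - h^q + h` -/
def fV (C : CurR q k R) : R := C.a - C.h ^ q + C.h

end CurR

/-- the piece with given ends of the Čech indices `c ≤ c'`: `(0,0) ↦ X`, `(1,1) ↦ Y`, `(0,1) ↦ R` -/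
def pcc : Fin 2 → Fin 2 → Option Pc
  | 0, 0 => some Pc.X
  | 0, 1 => some Pc.R
  | 1, 0 => none
  | 1, 1 => some Pc.Y

/-- the weight of a generator: `O` and `O(1)` -/
def wt (g : Fin 2) : ℤ := ((g : ℕ) : ℤ)

/-- the matrix `e_12` -/
def e12 : Matrix (Fin 2) (Fin 2) k := !![0, 1; 0, 0]

/-- the matrix `diag(1,-1)` -/
def epsM : Matrix (Fin 2) (Fin 2) k := !![1, 0; 0, -1]

/-- the ring of the intersection of the four charts of the surface -/
structure SurR (C : CurR q k R) (K : Type) [CommRing K] [Algebra k K] where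
  l : R →ₐ[k] K
  r : R →ₐ[k] K
  t : K
  bas : Module.Basis ((ℤ × Fin 2) × (ℤ × Fin 2) × Fin q) k K
  bas_eq : ∀ (i j : ℤ × Fin 2) (s : Fin q), bas (i, j, s) = l (C.bas i) * r (C.bas j) * t ^ (s : ℕ)
  rel : t ^ q = t + l C.a - r C.a

namespace SurR

variable {C : CurR q k R} (W : SurR C K)

/-- the coordinate `t` on the chart `s × s'` -/
def tt (s s' : Pc) : K :=
  W.t - (match s with
    | Pc.Y => W.l C.h
    | _ => 0) + (match s' with
    | Pc.Y => W.r C.h
    | _ => 0)

/-- sections over `s × s'` of `O(m,n)` -/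
def pc (s s' : Pc) (m n : ℤ) : Submodule k K :=
  Submodule.span k {z | ∃ x ∈ C.pc s m, ∃ y ∈ C.pc s' n, ∃ i < q, z = W.l x * W.r y * W.tt s s' ^ i}

end SurR

end EK
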