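import Mathlib
import Pool.Agent.H36.EK.Defs

/-!
# Cur : the pieces of the curve are closed under products; `f_V` is a function on the chart `b ≠ 0`
-/

set_option autoImplicit false

open NC

noncomputable section

namespace EK

open H36.NX

variable {q : ℕ} {k : Type} [Field k] {R : Type} [CommRing R] [Algebra k R]

namespace CurR

variable (C : CurR q k R)

/-- the elements `b^m a^i` of a piece -/
def idp (q : ℕ) (s : Pc) (n : ℤ) (m : ℤ) (i : Fin 2) : Prop :=
  match s with
  | Pc.X => 0 ≤ m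
  | Pc.Y => m + (q : ℤ) * ((i : ℕ) : ℤ) ≤ n
  | Pc.R => True

/-- `b^m`, `m` an integer -/
def up (m : ℤ) : R := ((C.u ^ m : Rˣ) : R)

theorem up_add (m n : ℤ) : C.up (m + n) = C.up m * C.up n := by
  rw [up, zpow_add, Units.val_mul]
  rfl

theorem up_zero : C.up 0 = 1 := by rw [up, zpow_zero, Units.val_one]

theorem up_one : C.up 1 = (C.u : R) := by rw [up, zpow_one]

theorem up_nat (n : ℕ) : C.up (n : ℤ) = (C.u : R) ^ n := by
  rw [up, zpow_natCast, Units.val_pow_eq_pow_val]

theorem up_mul_neg (m : ℤ) : C.up m * C.up (-m) = 1 := by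
  rw [← up_add, add_neg_cancel, up_zero]

theorem up_pow (m : ℤ) (n : ℕ) : C.up m ^ n = C.up (m * n) := by
  induction n with
  | zero => rw [pow_zero, Nat.cast_zero, mul_zero, up_zero]
  | succ n ih => rw [pow_succ, ih, ← up_add]; congr 1; push_cast; ring

theorem bas_eq' (m : ℤ) (i : Fin 2) : C.bas (m, i) = C.up m * C.a ^ (i : ℕ) := C.bas_eq m i

theorem bas_zero (m : ℤ) : C.bas (m, 0) = C.up m := by
  rw [bas_eq']
  simp

theorem bas_one (m : ℤ) : C.bas (m, 1) = C.up m * C.a := by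
  rw [bas_eq']
  simp

/-- `a^2 = b^q a - b a + 1` -/
theorem rel' : C.a * C.a = C.up q * C.a - C.up 1 * C.a + 1 := by
  have h := C.rel
  rw [sq] at h
  rw [h, up_nat, up_one]
  ring

theorem bas_mem_pc (s : Pc) (n m : ℤ) (i : Fin 2) (h : idp q s n m i) :
    C.bas (m, i) ∈ C.pc s n := by
  cases s with
  | X =>
    refine Submodule.subset_span ⟨(m.toNat, i), ?_⟩
    have h' : (0 : ℤ) ≤ m := h
    change C.bas ((m.toNat : ℤ), i) = _
    rw [Int.toNat_of_nonneg h']
  | Y =>
    have h' : m + (q : ℤ) * ((i : ℕ) : ℤ) ≤ n := h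
    refine Submodule.subset_span ⟨((n - (q : ℤ) * ((i : ℕ) : ℤ) - m).toNat, i), ?_⟩
    change C.bas (n - (q : ℤ) * ((i : ℕ) : ℤ) -
      (((n - (q : ℤ) * ((i : ℕ) : ℤ) - m).toNat : ℕ) : ℤ), i) = _
    rw [Int.toNat_of_nonneg (by omega)]
    congr 2
    ring
  | R => trivial

theorem pc_le (s : Pc) (n : ℤ) (U : Submodule k R)
    (h : ∀ m i, idp q s n m i → C.bas (m, i) ∈ U) : C.pc s n ≤ U := by
  cases s with
  | X =>
    refine Submodule.span_le.2 ?_
    rintro _ ⟨⟨p, i⟩, rfl⟩
    exact h _ _ (by change (0 : ℤ) ≤ (p : ℤ); positivity)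
  | Y =>
    refine Submodule.span_le.2 ?_
    rintro _ ⟨⟨p, i⟩, rfl⟩
    exact h _ _ (by
      change n - (q : ℤ) * ((i : ℕ) : ℤ) - (p : ℤ) + (q : ℤ) * ((i : ℕ) : ℤ) ≤ n
      omega)
  | R =>
    intro x _
    have hx : x ∈ Submodule.span k (Set.range C.bas) := by rw [C.bas.span_eq]; trivial
    refine (Submodule.span_le.2 ?_ : Submodule.span k (Set.range C.bas) ≤ U) hx
    rintro _ ⟨⟨m, i⟩, rfl⟩
    exact h _ _ trivial

/-- an element lies in a piece iff the coefficients outside vanish -/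
theorem mem_pc_iff (s : Pc) (n : ℤ) (x : R) :
    x ∈ C.pc s n ↔ ∀ m i, ¬ idp q s n m i → C.bas.repr x (m, i) = 0 := by
  constructor
  · intro hx m i hmi
    have key : C.pc s n ≤ LinearMap.ker (C.bas.coord (m, i)) := by
      refine C.pc_le s n _ (fun m' i' h' => ?_)
      change C.bas.coord (m, i) (C.bas (m', i')) = 0
      rw [Module.Basis.coord_apply, C.bas.repr_self, Finsupp.single_apply, if_neg]
      rintro hh
      rw [Prod.mk.injEq] at hh
      rw [hh.1, hh.2] at h'
      exact hmi h'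
    exact key hx
  · intro hx
    rw [← C.bas.linearCombination_repr x, Finsupp.linearCombination_apply, Finsupp.sum]
    refine Submodule.sum_mem _ fun p hp => (C.pc s n).smul_mem _ ?_
    obtain ⟨m, i⟩ := p
    refine C.bas_mem_pc s n m i ?_
    by_contra hc
    exact (Finsupp.mem_support_iff.1 hp) (hx m i hc)

theorem pc_mono (s : Pc) {m n : ℤ} (h : m ≤ n) : C.pc s m ≤ C.pc s n := by
  refine C.pc_le s m _ (fun j i hj => C.bas_mem_pc s n j i ?_)
  cases s with
  | X => exact hj
  | Y => exact le_trans hj h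
  | R => trivial

theorem up_mem_X {m : ℤ} (h : 0 ≤ m) (n : ℤ) : C.up m ∈ C.pc Pc.X n := by
  rw [← bas_zero]
  exact C.bas_mem_pc Pc.X n m 0 h

theorem up_mem_Y {m n : ℤ} (h : m ≤ n) : C.up m ∈ C.pc Pc.Y n := by
  rw [← bas_zero]
  refine C.bas_mem_pc Pc.Y n m 0 ?_
  change m + (q : ℤ) * (((0 : Fin 2) : ℕ) : ℤ) ≤ n
  simpa using h

theorem upa_mem_X {m : ℤ} (h : 0 ≤ m) (n : ℤ) : C.up m * C.a ∈ C.pc Pc.X n := by
  rw [← bas_one]
  exact C.bas_mem_pc Pc.X n m 1 h

theorem upa_mem_Y {m n : ℤ} (h : m + q ≤ n) : C.up m * C.a ∈ C.pc Pc.Y n := by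
  rw [← bas_one]
  refine C.bas_mem_pc Pc.Y n m 1 ?_
  change m + (q : ℤ) * (((1 : Fin 2) : ℕ) : ℤ) ≤ n
  simpa using h

theorem one_mem_pc (s : Pc) {n : ℤ} (hn : 0 ≤ n) : (1 : R) ∈ C.pc s n := by
  rw [← C.up_zero]
  cases s with
  | X => exact C.up_mem_X le_rfl n
  | Y => exact C.up_mem_Y hn
  | R => trivial

/-- products of the basis vectors -/
theorem bas_mul (m n : ℤ) (i j : Fin 2) : C.bas (m, i) * C.bas (n, j) =
    if i = 0 then C.bas (m + n, j) else if j = 0 then C.bas (m + n, 1)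
      else C.bas (m + n + q, 1) - C.bas (m + n + 1, 1) + C.bas (m + n, 0) := by
  fin_cases i <;> fin_cases j
  · simp only [Fin.zero_eta, if_true, bas_zero, up_add]
  · simp only [Fin.zero_eta, Fin.mk_one, if_true, bas_zero, bas_one, up_add]
    ring
  · simp only [Fin.zero_eta, Fin.mk_one, if_true, bas_zero, bas_one, up_add, one_ne_zero, if_false]
    ring
  · simp only [Fin.mk_one, bas_zero, bas_one, up_add, one_ne_zero, if_false]
    have h := C.rel'
    calc C.up m * C.a * (C.up n * C.a) = C.up m * C.up n * (C.a * C.a) := by ring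
      _ = _ := by rw [h]; ring

theorem pc_mul_mem (s : Pc) {m n : ℤ} {x y : R} (hx : x ∈ C.pc s m) (hy : y ∈ C.pc s n) :
    x * y ∈ C.pc s (m + n) := by
  have hq := C.hq
  have h1 : ∀ j i, idp q s m j i → ∀ j' i', idp q s n j' i' →
      C.bas (j, i) * C.bas (j', i') ∈ C.pc s (m + n) := by
    intro j i hj j' i' hj'
    rw [C.bas_mul]
    by_cases hi : i = 0
    · subst hi
      rw [if_pos rfl]
      refine C.bas_mem_pc s _ _ _ ?_
      cases s with
      | X => exact add_nonneg hj hj'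
      | Y =>
        change j + (q : ℤ) * (((0 : Fin 2) : ℕ) : ℤ) ≤ m at hj
        change j' + (q : ℤ) * ((i' : ℕ) : ℤ) ≤ n at hj'
        change j + j' + (q : ℤ) * ((i' : ℕ) : ℤ) ≤ m + n
        simp at hj
        omega
      | R => trivial
    · have hi1 : i = 1 := by omega
      subst hi1
      rw [if_neg hi]
      by_cases hi' : i' = 0
      · subst hi'
        rw [if_pos rfl]
        refine C.bas_mem_pc s _ _ _ ?_
        cases s with
        | X => exact add_nonneg hj hj'
        | Y =>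
          change j + (q : ℤ) * (((1 : Fin 2) : ℕ) : ℤ) ≤ m at hj
          change j' + (q : ℤ) * (((0 : Fin 2) : ℕ) : ℤ) ≤ n at hj'
          change j + j' + (q : ℤ) * (((1 : Fin 2) : ℕ) : ℤ) ≤ m + n
          simp at hj hj' ⊢
          omega
        | R => trivial
      · have hi1' : i' = 1 := by omega
        subst hi1'
        rw [if_neg hi']
        cases s with
        | X =>
          change (0 : ℤ) ≤ j at hj
          change (0 : ℤ) ≤ j' at hj'
          refine Submodule.add_mem _ (Submodule.sub_mem _ (C.bas_mem_pc _ _ _ _ ?_)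
            (C.bas_mem_pc _ _ _ _ ?_)) (C.bas_mem_pc _ _ _ _ ?_)
          · change (0 : ℤ) ≤ j + j' + q
            positivity
          · change (0 : ℤ) ≤ j + j' + 1
            positivity
          · exact add_nonneg hj hj'
        | Y =>
          change j + (q : ℤ) * (((1 : Fin 2) : ℕ) : ℤ) ≤ m at hj
          change j' + (q : ℤ) * (((1 : Fin 2) : ℕ) : ℤ) ≤ n at hj'
          simp at hj hj'
          have hq' : (2 : ℤ) ≤ q := by exact_mod_cast hq
          refine Submodule.add_mem _ (Submodule.sub_mem _ (C.bas_mem_pc _ _ _ _ ?_)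
            (C.bas_mem_pc _ _ _ _ ?_)) (C.bas_mem_pc _ _ _ _ ?_)
          · change j + j' + q + (q : ℤ) * (((1 : Fin 2) : ℕ) : ℤ) ≤ m + n
            simp
            omega
          · change j + j' + 1 + (q : ℤ) * (((1 : Fin 2) : ℕ) : ℤ) ≤ m + n
            simp
            omega
          · change j + j' + (q : ℤ) * (((0 : Fin 2) : ℕ) : ℤ) ≤ m + n
            simp
            omega
        | R => trivial
  have h2 : ∀ j i, idp q s m j i → C.bas (j, i) * y ∈ C.pc s (m + n) := by
    intro j i hj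
    have : C.pc s n ≤ (C.pc s (m + n)).comap (LinearMap.mulLeft k (C.bas (j, i))) :=
      C.pc_le s n _ (fun j' i' hj' => h1 j i hj j' i' hj')
    exact this hy
  have h3 : C.pc s m ≤ (C.pc s (m + n)).comap (LinearMap.mulRight k y) :=
    C.pc_le s m _ (fun j i hj => h2 j i hj)
  exact h3 hx

theorem pc_pow_mem (s : Pc) {x : R} (hx : x ∈ C.pc s 0) (n : ℕ) : x ^ n ∈ C.pc s 0 := by
  induction n with
  | zero => rw [pow_zero]; exact C.one_mem_pc s le_rfl
  | succ n ih =>
    rw [pow_succ]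
    have := C.pc_mul_mem s ih hx
    rwa [add_zero] at this

/-- `f_V` is regular on the chart `b ≠ 0` -/
theorem fV_mem (hq : (q : k) = 0) : C.fV ∈ C.pc Pc.Y 0 := by
  have hq2 := C.hq
  have hq2' : (2 : ℤ) ≤ q := by exact_mod_cast hq2
  set w : R := C.up (-1) with hw
  set a' : R := C.up (-q) * C.a with ha'
  have hwm : w ∈ C.pc Pc.Y 0 := C.up_mem_Y (by norm_num)
  have ham : a' ∈ C.pc Pc.Y 0 := C.upa_mem_Y (by simp)
  have huw : C.up 1 * w = 1 := C.up_mul_neg 1
  have hwp : ∀ n : ℕ, w ^ n = C.up (-n) := by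
    intro n
    rw [hw, up_pow]
    congr 1
    ring
  have haa : a' - a' * a' = w ^ (q - 1) * a' - w ^ (2 * q) := by
    have h := C.rel'
    have e1 : a' * a' = C.up (-(2 * q)) * (C.a * C.a) := by
      rw [ha', show (-(2 * q) : ℤ) = -q + -q by ring, up_add]
      ring
    rw [e1, h, hwp, hwp, ha']
    have e2 : C.up (-(2 * (q : ℤ))) * C.up q = C.up (-q) := by
      rw [← up_add]; congr 1; ring
    have e3 : C.up (-((q - 1 : ℕ) : ℤ)) * C.up (-q) = C.up (-(2 * (q : ℤ))) * C.up 1 := by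
      rw [← up_add, ← up_add]
      congr 1
      rw [Nat.cast_sub (by omega)]
      push_cast
      ring
    have e4 : (-((2 * q : ℕ) : ℤ)) = -(2 * (q : ℤ)) := by push_cast; ring
    rw [e4]
    linear_combination (-C.a) * e2 - C.a * e3
  have hh : C.h = C.up 1 * a' := by
    rw [CurR.h, ha', ← mul_assoc, ← up_add, mul_comm]
    rfl
  have hsum : a' - a' ^ q = (w ^ (q - 1) * a' - w ^ (2 * q)) * ∑ j ∈ Finset.range (q - 1), a' ^ j := by
    rw [← haa]
    have h := mul_neg_geom_sum a' (q - 1)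
    have e : a' - a' ^ q = a' * (1 - a' ^ (q - 1)) := by
      rw [mul_sub, mul_one, ← pow_succ', Nat.sub_add_cancel (by omega)]
    rw [e, ← h]
    ring
  have huq : C.up q * w ^ (q - 1) = C.up 1 := by
    rw [hwp, ← up_add]
    congr 1
    rw [Nat.cast_sub (by omega)]
    push_cast
    ring
  have huq2 : C.up q * w ^ (2 * q) = w ^ q := by
    rw [hwp, hwp, ← up_add]
    congr 1
    push_cast
    ring
  have hfv : C.fV = C.up 1 * (a' * (1 + ∑ j ∈ Finset.range (q - 1), a' ^ j))
      - w ^ q * ∑ j ∈ Finset.range (q - 1), a' ^ j := by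
    have e1 : C.fV = C.up q * (a' - a' ^ q) + C.up 1 * a' := by
      have e2 : C.up q * a' = C.a := by rw [ha', ← mul_assoc, up_mul_neg, one_mul]
      rw [CurR.fV, hh, mul_pow, up_pow, one_mul, mul_sub, e2]
    rw [e1, hsum]
    linear_combination (a' * ∑ j ∈ Finset.range (q - 1), a' ^ j) * huq -
      (∑ j ∈ Finset.range (q - 1), a' ^ j) * huq2
  -- congruences modulo `w`
  have hmul : ∀ {x y : R}, x ∈ C.pc Pc.Y 0 → y ∈ C.pc Pc.Y 0 → x * y ∈ C.pc Pc.Y 0 := by
    intro x y hx hy
    have := C.pc_mul_mem Pc.Y hx hy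
    rwa [add_zero] at this
  have hc : ∀ j : ℕ, ∃ y ∈ C.pc Pc.Y 0, a' ^ (j + 1) = a' + w * y := by
    intro j
    induction j with
    | zero => exact ⟨0, Submodule.zero_mem _, by ring⟩
    | succ j ih =>
      obtain ⟨y, hy, e⟩ := ih
      refine ⟨y * a' - w ^ (q - 2) * a' + w ^ (2 * q - 1), ?_, ?_⟩
      · refine Submodule.add_mem _ (Submodule.sub_mem _ (hmul hy ham)
          (hmul (C.pc_pow_mem _ hwm _) ham)) (C.pc_pow_mem _ hwm _)
      · rw [pow_succ, e]
        have e1 : w ^ (q - 1) = w * w ^ (q - 2) := by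
          rw [← pow_succ']; congr 1; omega
        have e2 : w ^ (2 * q) = w * w ^ (2 * q - 1) := by
          rw [← pow_succ']; congr 1; omega
        rw [e1, e2] at haa
        linear_combination (-1 : R) * haa
  choose Y hY hYe using hc
  have hkey : a' * (1 + ∑ j ∈ Finset.range (q - 1), a' ^ j) =
      w * ∑ j ∈ Finset.range (q - 1), Y j := by
    have e1 : a' * ∑ j ∈ Finset.range (q - 1), a' ^ j =
        ∑ j ∈ Finset.range (q - 1), (a' + w * Y j) := by
      rw [Finset.mul_sum]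
      refine Finset.sum_congr rfl (fun j _ => ?_)
      rw [← hYe, pow_succ, mul_comm]
    rw [mul_add, mul_one, e1, Finset.sum_add_distrib, Finset.sum_const, Finset.card_range,
      ← Finset.mul_sum, ← add_assoc]
    have e2 : a' + (q - 1) • a' = 0 := by
      have e3 : a' + (q - 1) • a' = (q : ℕ) • a' := by
        rw [← succ_nsmul', Nat.sub_add_cancel (by omega)]
      rw [e3, ← Nat.cast_smul_eq_nsmul k, hq, zero_smul]
    rw [e2, zero_add]
  rw [hfv, hkey, ← mul_assoc, huw, one_mul]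
  refine Submodule.sub_mem _ (Submodule.sum_mem _ fun j _ => hY j) (hmul (C.pc_pow_mem _ hwm _) ?_)
  exact Submodule.sum_mem _ fun j _ => C.pc_pow_mem _ ham _

end CurR

end EK
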