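import Mathlib
import Pool.Agent.H36.EK.Cur

/-!
# AX : the dg algebras `AE` of the curve and `AX` of the surface
-/

set_option autoImplicit false

open NC
open scoped Kronecker

noncomputable section

namespace EK

open H36.NX

variable {q : ℕ} {k : Type} [Field k] {R : Type} [CommRing R] [Algebra k R]
  {K : Type} [CommRing K] [Algebra k K]

/-- restriction of sections: a piece is contained in itself and in the overlap -/
def Le (s s' : Pc) : Prop := s = s' ∨ s' = Pc.R

theorem Le.refl (s : Pc) : Le s s := Or.inl rfl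

theorem pcc_mul {c d f : Fin 2} {s s' : Pc} (h : pcc c d = some s) (h' : pcc d f = some s') :
    ∃ s'', pcc c f = some s'' ∧ Le s s'' ∧ Le s' s'' := by
  fin_cases c <;> fin_cases d <;> fin_cases f <;> simp [pcc, Le] at h h' ⊢ <;> subst h <;>
    subst h' <;> simp

/-! ### the curve -/

namespace CurR

variable (C : CurR q k R)

theorem pc_le_of_Le {s s' : Pc} (h : Le s s') (n : ℤ) : C.pc s n ≤ C.pc s' n := by
  rcases h with rfl | rfl
  · exact le_rfl
  · exact le_top

/-- the matrix `e` -/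
def eE : Matrix (Fin 2 × Fin 2) (Fin 2 × Fin 2) k := (e12 (k := k)) ⊗ₖ (1 : Matrix (Fin 2) (Fin 2) k)

theorem e12_sq : (e12 (k := k)) * e12 = 0 := by
  ext i j
  fin_cases i <;> fin_cases j <;> simp [e12, Matrix.mul_apply, Fin.sum_univ_two]

theorem e12_ne {c d : Fin 2} (h : (e12 (k := k)) c d ≠ 0) : c = 0 ∧ d = 1 := by
  fin_cases c <;> fin_cases d <;> simp [e12] at h ⊢

theorem epsM_ne {c d : Fin 2} (h : (epsM (k := k)) c d ≠ 0) : c = d := by
  fin_cases c <;> fin_cases d <;> simp [epsM] at h ⊢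

theorem one_ne {I : Type} [DecidableEq I] {c d : I} (h : (1 : Matrix I I k) c d ≠ 0) : c = d := by
  by_contra hc
  exact h (Matrix.one_apply_ne hc)

/-- the entries of the matrices of `AE` -/
def SE (i j : Fin 2 × Fin 2) : Submodule k R :=
  match pcc i.1 j.1 with
  | some s => C.pc s (wt j.2 - wt i.2)
  | none => ⊥

theorem SE_some {i j : Fin 2 × Fin 2} {s : Pc} (h : pcc i.1 j.1 = some s) :
    C.SE i j = C.pc s (wt j.2 - wt i.2) := by
  unfold SE
  rw [h]

theorem SE_none {i j : Fin 2 × Fin 2} (h : pcc i.1 j.1 = none) : C.SE i j = ⊥ := by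
  unfold SE
  rw [h]

theorem SE_mul (i j l : Fin 2 × Fin 2) (x y : R) (hx : x ∈ C.SE i j) (hy : y ∈ C.SE j l) :
    x * y ∈ C.SE i l := by
  cases h1 : pcc i.1 j.1 with
  | none =>
    rw [C.SE_none h1, Submodule.mem_bot] at hx
    rw [hx, zero_mul]
    exact Submodule.zero_mem _
  | some s =>
    cases h2 : pcc j.1 l.1 with
    | none =>
      rw [C.SE_none h2, Submodule.mem_bot] at hy
      rw [hy, mul_zero]
      exact Submodule.zero_mem _
    | some s' =>
      obtain ⟨s'', h3, hs, hs'⟩ := pcc_mul h1 h2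
      rw [C.SE_some h1] at hx
      rw [C.SE_some h2] at hy
      rw [C.SE_some h3, show wt l.2 - wt i.2 = (wt j.2 - wt i.2) + (wt l.2 - wt j.2) by ring]
      exact C.pc_mul_mem s'' (C.pc_le_of_Le hs _ hx) (C.pc_le_of_Le hs' _ hy)

/-- the data of the dg algebra of the curve: `Čech (End (O + O(1)))` -/
def datE : MatDat k R (Fin 2 × Fin 2) where
  deg i := ((i.1 : ℕ) : ℤ)
  e := eE
  e_deg i j h := by
    have h1 : (e12 (k := k)) i.1 j.1 ≠ 0 := fun h0 => h (by
      change (e12 (k := k)) i.1 j.1 * _ = 0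
      rw [h0, zero_mul])
    obtain ⟨hi, hj⟩ := e12_ne h1
    simp only [hi, hj]
    norm_num
  e_sq := by
    rw [eE, ← Matrix.mul_kronecker_mul, e12_sq, Matrix.zero_kronecker]
  S := C.SE
  one_mem i := by
    have h : ∃ s, pcc i.1 i.1 = some s := by
      have : ∀ c : Fin 2, ∃ s, pcc c c = some s := by decide
      exact this i.1
    obtain ⟨s, h⟩ := h
    rw [C.SE_some h]
    exact C.one_mem_pc s (by rw [sub_self])
  mul_mem := C.SE_mul
  e_mul i j l x h hx := by
    have h1 : (e12 (k := k)) i.1 j.1 ≠ 0 := fun h0 => h (by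
      change (e12 (k := k)) i.1 j.1 * _ = 0
      rw [h0, zero_mul])
    have h2 : (1 : Matrix (Fin 2) (Fin 2) k) i.2 j.2 ≠ 0 := fun h0 => h (by
      change _ * (1 : Matrix (Fin 2) (Fin 2) k) i.2 j.2 = 0
      rw [h0, mul_zero])
    obtain ⟨hi, hj⟩ := e12_ne h1
    have hg := one_ne h2
    have h3 : (1 : R) ∈ C.SE i j := by
      have : pcc i.1 j.1 = some Pc.R := by rw [hi, hj]; rfl
      rw [C.SE_some this]
      trivial
    have := C.SE_mul i j l 1 x h3 hx
    rwa [one_mul] at this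
  mul_e i j l x h hx := by
    have h1 : (e12 (k := k)) j.1 l.1 ≠ 0 := fun h0 => h (by
      change (e12 (k := k)) j.1 l.1 * _ = 0
      rw [h0, zero_mul])
    obtain ⟨hi, hj⟩ := e12_ne h1
    have h3 : (1 : R) ∈ C.SE j l := by
      have : pcc j.1 l.1 = some Pc.R := by rw [hi, hj]; rfl
      rw [C.SE_some this]
      trivial
    have := C.SE_mul i j l x 1 hx h3
    rwa [mul_one] at this

/-- the dg algebra of the curve -/
abbrev AE : ZDGA k := matZ C.datE

end CurR

/-! ### the surface -/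

namespace SurR

variable {C : CurR q k R} (W : SurR C K)

/-- `t^q - t = l (fa s) - r (fa s')` on the chart `s × s'` -/
def _root_.EK.CurR.fa (C : CurR q k R) (s : Pc) : R :=
  match s with
  | Pc.Y => C.fV
  | _ => C.a

theorem _root_.EK.CurR.fa_mem (C : CurR q k R) (hq : (q : k) = 0) (s : Pc) : C.fa s ∈ C.pc s 0 := by
  cases s with
  | X =>
    have h := C.upa_mem_X le_rfl 0
    rwa [C.up_zero, one_mul] at h
  | Y => exact C.fV_mem hq
  | R => trivial

/-- hypotheses on `q`: a power of the characteristic -/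
structure QP (p q : ℕ) (k : Type) [Field k] : Prop where
  prime : p.Prime
  char : CharP k p
  pow : ∃ n, n ≠ 0 ∧ q = p ^ n

theorem _root_.EK.SurR.QP.cast_eq {p q : ℕ} (h : QP p q k) : (q : k) = 0 := by
  obtain ⟨n, hn, e⟩ := h.pow
  have := h.char
  rw [e, Nat.cast_pow, CharP.cast_eq_zero, zero_pow hn]

theorem _root_.EK.SurR.QP.add_pow {p q : ℕ} (h : QP p q k) {A : Type} [CommRing A] [Algebra k A]
    (x y : A) : (x + y) ^ q = x ^ q + y ^ q := by
  rcases subsingleton_or_nontrivial A with hA | hA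
  · exact Subsingleton.elim _ _
  obtain ⟨n, -, e⟩ := h.pow
  have := h.char
  have hp : Fact p.Prime := ⟨h.prime⟩
  have : CharP A p := charP_of_injective_algebraMap (algebraMap k A).injective p
  rw [e]
  exact add_pow_char_pow x y p n

theorem _root_.EK.SurR.QP.sub_pow {p q : ℕ} (h : QP p q k) {A : Type} [CommRing A] [Algebra k A]
    (x y : A) : (x - y) ^ q = x ^ q - y ^ q := by
  have := h.add_pow (x - y) y
  rw [sub_add_cancel] at this
  rw [this, add_sub_cancel_right]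

variable {p : ℕ} (hQ : QP p q k)

include hQ in
theorem tt_pow (s s' : Pc) : W.tt s s' ^ q = W.tt s s' + W.l (C.fa s) - W.r (C.fa s') := by
  have h1 : ∀ s : Pc, ∃ z : R, (C.fa s = C.a - z ^ q + z) ∧ ∀ s', W.tt s s' = W.t - W.l z + (match s' with
    | Pc.Y => W.r C.h
    | _ => 0) := by
    intro s
    cases s with
    | X =>
      refine ⟨0, ?_, fun s' => ?_⟩
      · rw [zero_pow (by have := C.hq; omega), sub_zero, add_zero]
        rfl
      · rw [map_zero]
        rfl
    | Y => exact ⟨C.h, rfl, fun s' => rfl⟩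
    | R =>
      refine ⟨0, ?_, fun s' => ?_⟩
      · rw [zero_pow (by have := C.hq; omega), sub_zero, add_zero]
        rfl
      · rw [map_zero]
        rfl
  have h2 : ∀ s' : Pc, ∃ z : R, (C.fa s' = C.a - z ^ q + z) ∧ (match s' with
    | Pc.Y => W.r C.h
    | _ => 0) = W.r z := by
    intro s
    cases s with
    | X =>
      refine ⟨0, ?_, (map_zero _).symm⟩
      rw [zero_pow (by have := C.hq; omega), sub_zero, add_zero]
      rfl
    | Y => exact ⟨C.h, rfl, rfl⟩
    | R =>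
      refine ⟨0, ?_, (map_zero _).symm⟩
      rw [zero_pow (by have := C.hq; omega), sub_zero, add_zero]
      rfl
  obtain ⟨z, hz, e⟩ := h1 s
  obtain ⟨z', hz', e'⟩ := h2 s'
  rw [e, e', hz, hz', hQ.add_pow, hQ.sub_pow, W.rel]
  simp only [map_add, map_sub, map_pow]
  ring

include hQ in
/-- all powers of `t` are allowed -/
theorem mono_mem (s s' : Pc) (N : ℕ) : ∀ (m n : ℤ) (x y : R), x ∈ C.pc s m → y ∈ C.pc s' n →
    W.l x * W.r y * W.tt s s' ^ N ∈ W.pc s s' m n := by
  induction N using Nat.strong_induction_on with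
  | _ N ih =>
    intro m n x y hx hy
    by_cases hN : N < q
    · exact Submodule.subset_span ⟨x, hx, y, hy, N, hN, rfl⟩
    · have hq := C.hq
      have e : W.l x * W.r y * W.tt s s' ^ N = W.l x * W.r y * W.tt s s' ^ (N - q + 1) +
          W.l (x * C.fa s) * W.r y * W.tt s s' ^ (N - q) -
            W.l x * W.r (y * C.fa s') * W.tt s s' ^ (N - q) := by
        have e1 : W.tt s s' ^ N = W.tt s s' ^ (N - q) * W.tt s s' ^ q := by
          rw [← pow_add]; congr 1; omega
        rw [e1, W.tt_pow hQ, map_mul, map_mul, pow_succ]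
        ring
      rw [e]
      refine Submodule.sub_mem _ (Submodule.add_mem _ (ih _ (by omega) m n x y hx hy)
        (ih _ (by omega) m n _ _ ?_ hy)) (ih _ (by omega) m n _ _ hx ?_)
      · have := C.pc_mul_mem s hx (C.fa_mem hQ.cast_eq s)
        rwa [add_zero] at this
      · have := C.pc_mul_mem s' hy (C.fa_mem hQ.cast_eq s')
        rwa [add_zero] at this

include hQ in
theorem pc_mul_mem (s s' : Pc) {m n m' n' : ℤ} {x y : K} (hx : x ∈ W.pc s s' m n)
    (hy : y ∈ W.pc s s' m' n') : x * y ∈ W.pc s s' (m + m') (n + n') := by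
  have h1 : ∀ z ∈ {z | ∃ x ∈ C.pc s m, ∃ y ∈ C.pc s' n, ∃ i < q, z = W.l x * W.r y * W.tt s s' ^ i},
      ∀ w ∈ W.pc s s' m' n', z * w ∈ W.pc s s' (m + m') (n + n') := by
    rintro _ ⟨x, hx, y, hy, i, hi, rfl⟩ w hw
    refine Submodule.span_induction (p := fun w _ => W.l x * W.r y * W.tt s s' ^ i * w ∈
      W.pc s s' (m + m') (n + n')) ?_ ?_ ?_ ?_ hw
    · rintro _ ⟨x', hx', y', hy', j, hj, rfl⟩
      have := W.mono_mem hQ s s' (i + j) (m + m') (n + n') (x * x') (y * y')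
        (C.pc_mul_mem s hx hx') (C.pc_mul_mem s' hy hy')
      rw [map_mul, map_mul, pow_add] at this
      have e : W.l x * W.r y * W.tt s s' ^ i * (W.l x' * W.r y' * W.tt s s' ^ j) =
          W.l x * W.l x' * (W.r y * W.r y') * (W.tt s s' ^ i * W.tt s s' ^ j) := by ring
      rw [e]
      exact this
    · rw [mul_zero]
      exact Submodule.zero_mem _
    · intro a b _ _ ha hb
      rw [mul_add]
      exact Submodule.add_mem _ ha hb
    · intro c a _ ha
      rw [mul_smul_comm]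
      exact Submodule.smul_mem _ _ ha
  refine Submodule.span_induction (p := fun z _ => z * y ∈ W.pc s s' (m + m') (n + n'))
    (fun z hz => h1 z hz y hy) ?_ ?_ ?_ hx
  · rw [zero_mul]
    exact Submodule.zero_mem _
  · intro a b _ _ ha hb
    rw [add_mul]
    exact Submodule.add_mem _ ha hb
  · intro c a _ ha
    rw [smul_mul_assoc]
    exact Submodule.smul_mem _ _ ha

include hQ in
theorem lr_mem (s s' : Pc) {m n : ℤ} {x y : R} (hx : x ∈ C.pc s m) (hy : y ∈ C.pc s' n) :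
    W.l x * W.r y ∈ W.pc s s' m n := by
  have h := W.mono_mem hQ s s' 0 m n x y hx hy
  rwa [pow_zero, mul_one] at h

include hQ in
theorem one_mem_pc (s s' : Pc) {m n : ℤ} (hm : 0 ≤ m) (hn : 0 ≤ n) : (1 : K) ∈ W.pc s s' m n := by
  have h := W.lr_mem hQ s s' (C.one_mem_pc s hm) (C.one_mem_pc s' hn)
  rwa [map_one, map_one, one_mul] at h

include hQ in
theorem l_mem (s s' : Pc) {m n : ℤ} {x : R} (hx : x ∈ C.pc s m) (hn : 0 ≤ n) :
    W.l x ∈ W.pc s s' m n := by
  have h := W.lr_mem hQ s s' hx (C.one_mem_pc s' hn)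
  rwa [map_one, mul_one] at h

include hQ in
theorem r_mem (s s' : Pc) {m n : ℤ} {y : R} (hm : 0 ≤ m) (hy : y ∈ C.pc s' n) :
    W.r y ∈ W.pc s s' m n := by
  have h := W.lr_mem hQ s s' (C.one_mem_pc s hm) hy
  rwa [map_one, one_mul] at h

include hQ in
theorem tt_mem (s s' : Pc) : W.tt s s' ∈ W.pc s s' 0 0 := by
  have h := W.mono_mem hQ s s' 1 0 0 1 1 (C.one_mem_pc s le_rfl) (C.one_mem_pc s' le_rfl)
  rwa [map_one, map_one, one_mul, one_mul, pow_one] at h

include hQ in
theorem pc_pow_mem (s s' : Pc) {x : K} (hx : x ∈ W.pc s s' 0 0) (n : ℕ) : x ^ n ∈ W.pc s s' 0 0 := by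
  induction n with
  | zero => rw [pow_zero]; exact W.one_mem_pc hQ s s' le_rfl le_rfl
  | succ n ih =>
    rw [pow_succ]
    have := W.pc_mul_mem hQ s s' ih hx
    rwa [add_zero] at this

include hQ in
/-- `t` on a smaller open set -/
theorem tt_mem_of_Le {s s' r r' : Pc} (h : Le s r) (h' : Le s' r') :
    W.tt s s' ∈ W.pc r r' 0 0 := by
  have h0 := W.tt_mem hQ r r'
  have hl : W.tt s s' - W.tt r r' ∈ W.pc r r' 0 0 := by
    have h1 : ∃ z w : R, z ∈ C.pc r 0 ∧ w ∈ C.pc r' 0 ∧ W.tt s s' - W.tt r r' = W.l z + W.r w := by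
      have hz : ∃ z : R, z ∈ C.pc r 0 ∧ ∀ s' r' : Pc, W.tt s s' - W.tt r s' = W.l z := by
        rcases h with rfl | rfl
        · exact ⟨0, Submodule.zero_mem _, fun s' _ => by rw [sub_self, map_zero]⟩
        · cases s with
          | X => exact ⟨0, Submodule.zero_mem _, fun s' _ => by rw [map_zero]; exact sub_self _⟩
          | Y =>
            refine ⟨-C.h, trivial, fun s' _ => ?_⟩
            unfold tt
            rw [map_neg]
            ring
          | R => exact ⟨0, Submodule.zero_mem _, fun s' _ => by rw [map_zero]; exact sub_self _⟩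
      have hw : ∃ w : R, w ∈ C.pc r' 0 ∧ W.tt r s' - W.tt r r' = W.r w := by
        rcases h' with rfl | rfl
        · exact ⟨0, Submodule.zero_mem _, by rw [sub_self, map_zero]⟩
        · cases s' with
          | X => exact ⟨0, Submodule.zero_mem _, by rw [map_zero]; exact sub_self _⟩
          | Y =>
            refine ⟨C.h, trivial, ?_⟩
            unfold tt
            ring
          | R => exact ⟨0, Submodule.zero_mem _, by rw [map_zero]; exact sub_self _⟩
      obtain ⟨z, hz, e⟩ := hz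
      obtain ⟨w, hw, e'⟩ := hw
      refine ⟨z, w, hz, hw, ?_⟩
      rw [← e s' r', ← e']
      ring
    obtain ⟨z, w, hz, hw, e⟩ := h1
    rw [e]
    exact Submodule.add_mem _ (W.l_mem hQ r r' hz le_rfl) (W.r_mem hQ r r' le_rfl hw)
  have := Submodule.add_mem _ hl h0
  rwa [sub_add_cancel] at this

include hQ in
theorem pc_le_of_Le {s s' r r' : Pc} (h : Le s r) (h' : Le s' r') (m n : ℤ) :
    W.pc s s' m n ≤ W.pc r r' m n := by
  refine Submodule.span_le.2 ?_
  rintro _ ⟨x, hx, y, hy, i, _, rfl⟩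
  have h1 := W.lr_mem hQ r r' (C.pc_le_of_Le h m hx) (C.pc_le_of_Le h' n hy)
  have h2 := W.pc_mul_mem hQ r r' h1 (W.pc_pow_mem hQ r r' (W.tt_mem_of_Le hQ h h') i)
  rwa [add_zero, add_zero] at h2

/-- the index set of the matrices of `AX`: Čech indices, generators -/
abbrev IX : Type := (Fin 2 × Fin 2) × (Fin 2 × Fin 2)

/-- the entries of the matrices of `AX` -/
def SX (i j : IX) : Submodule k K :=
  match pcc i.1.1 j.1.1, pcc i.1.2 j.1.2 with
  | some s, some s' => W.pc s s' (wt j.2.1 - wt i.2.1) (wt j.2.2 - wt i.2.2)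
  | _, _ => ⊥

theorem SX_some {i j : IX} {s s' : Pc} (h : pcc i.1.1 j.1.1 = some s)
    (h' : pcc i.1.2 j.1.2 = some s') :
    W.SX i j = W.pc s s' (wt j.2.1 - wt i.2.1) (wt j.2.2 - wt i.2.2) := by
  unfold SX
  rw [h, h']

theorem SX_none {i j : IX} (h : pcc i.1.1 j.1.1 = none ∨ pcc i.1.2 j.1.2 = none) :
    W.SX i j = ⊥ := by
  unfold SX
  rcases h with h | h
  · rw [h]
  · cases h' : pcc i.1.1 j.1.1 <;> simp [h]

theorem SX_cases {i j : IX} {x : K} (hx : x ∈ W.SX i j) :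
    x = 0 ∨ ∃ s s', pcc i.1.1 j.1.1 = some s ∧ pcc i.1.2 j.1.2 = some s' ∧
      x ∈ W.pc s s' (wt j.2.1 - wt i.2.1) (wt j.2.2 - wt i.2.2) := by
  cases h : pcc i.1.1 j.1.1 with
  | none =>
    rw [W.SX_none (Or.inl h)] at hx
    exact Or.inl ((Submodule.mem_bot k).1 hx)
  | some s =>
    cases h' : pcc i.1.2 j.1.2 with
    | none =>
      rw [W.SX_none (Or.inr h')] at hx
      exact Or.inl ((Submodule.mem_bot k).1 hx)
    | some s' =>
      rw [W.SX_some h h'] at hx
      exact Or.inr ⟨s, s', rfl, rfl, hx⟩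

include hQ in
theorem SX_mul (i j l : IX) (x y : K) (hx : x ∈ W.SX i j) (hy : y ∈ W.SX j l) :
    x * y ∈ W.SX i l := by
  rcases W.SX_cases hx with rfl | ⟨s, s', h1, h1', hx⟩
  · rw [zero_mul]
    exact Submodule.zero_mem _
  · rcases W.SX_cases hy with rfl | ⟨r, r', h2, h2', hy⟩
    · rw [mul_zero]
      exact Submodule.zero_mem _
    · obtain ⟨z, h3, hs, hr⟩ := pcc_mul h1 h2
      obtain ⟨z', h3', hs', hr'⟩ := pcc_mul h1' h2'
      rw [W.SX_some h3 h3', show wt l.2.1 - wt i.2.1 = (wt j.2.1 - wt i.2.1) + (wt l.2.1 - wt j.2.1) by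
        ring, show wt l.2.2 - wt i.2.2 = (wt j.2.2 - wt i.2.2) + (wt l.2.2 - wt j.2.2) by ring]
      exact W.pc_mul_mem hQ z z' (W.pc_le_of_Le hQ hs hs' _ _ hx) (W.pc_le_of_Le hQ hr hr' _ _ hy)

/-- the matrix `e = e12 ⊗ 1 + eps ⊗ e12`, tensored with the identity of the generators -/
def eX : Matrix IX IX k :=
  ((e12 (k := k)) ⊗ₖ (1 : Matrix (Fin 2) (Fin 2) k) + (epsM (k := k)) ⊗ₖ (e12 (k := k))) ⊗ₖ
    (1 : Matrix (Fin 2 × Fin 2) (Fin 2 × Fin 2) k)

theorem eX_apply (i j : IX) : (eX (k := k)) i j =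
    ((e12 (k := k)) i.1.1 j.1.1 * (1 : Matrix (Fin 2) (Fin 2) k) i.1.2 j.1.2 +
      (epsM (k := k)) i.1.1 j.1.1 * (e12 (k := k)) i.1.2 j.1.2) *
        (1 : Matrix (Fin 2 × Fin 2) (Fin 2 × Fin 2) k) i.2 j.2 := rfl

theorem eX_ne {i j : IX} (h : (eX (k := k)) i j ≠ 0) : i.2 = j.2 ∧
    ((i.1.1 = 0 ∧ j.1.1 = 1 ∧ i.1.2 = j.1.2) ∨ (i.1.1 = j.1.1 ∧ i.1.2 = 0 ∧ j.1.2 = 1)) := by
  rw [eX_apply] at h
  refine ⟨CurR.one_ne (right_ne_zero_of_mul h), ?_⟩
  have h1 := left_ne_zero_of_mul h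
  by_cases h2 : (e12 (k := k)) i.1.1 j.1.1 * (1 : Matrix (Fin 2) (Fin 2) k) i.1.2 j.1.2 = 0
  · rw [h2, zero_add] at h1
    have h3 := CurR.epsM_ne (left_ne_zero_of_mul h1)
    have h4 := CurR.e12_ne (right_ne_zero_of_mul h1)
    exact Or.inr ⟨h3, h4.1, h4.2⟩
  · have h3 := CurR.e12_ne (left_ne_zero_of_mul h2)
    have h4 := CurR.one_ne (right_ne_zero_of_mul h2)
    exact Or.inl ⟨h3.1, h3.2, h4⟩

theorem e12_eps : (e12 (k := k)) * epsM = - e12 := by
  ext i j
  fin_cases i <;> fin_cases j <;> simp [e12, epsM, Matrix.mul_apply, Fin.sum_univ_two]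

theorem eps_e12 : (epsM (k := k)) * e12 = e12 := by
  ext i j
  fin_cases i <;> fin_cases j <;> simp [e12, epsM, Matrix.mul_apply, Fin.sum_univ_two]

theorem eX_sq : (eX (k := k)) * eX = 0 := by
  have h : ((e12 (k := k)) ⊗ₖ (1 : Matrix (Fin 2) (Fin 2) k) + (epsM (k := k)) ⊗ₖ (e12 (k := k))) *
      ((e12 (k := k)) ⊗ₖ (1 : Matrix (Fin 2) (Fin 2) k) + (epsM (k := k)) ⊗ₖ (e12 (k := k))) = 0 := by
    rw [mul_add, add_mul, add_mul, ← Matrix.mul_kronecker_mul, ← Matrix.mul_kronecker_mul,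
      ← Matrix.mul_kronecker_mul, ← Matrix.mul_kronecker_mul, CurR.e12_sq, e12_eps, eps_e12,
      Matrix.zero_kronecker, Matrix.kronecker_zero, one_mul, mul_one, zero_add, add_zero]
    ext i j
    simp [Matrix.kroneckerMap_apply]
  rw [eX, ← Matrix.mul_kronecker_mul, h, Matrix.zero_kronecker]

/-- the degree of an index -/
def degX (i : IX) : ℤ := ((i.1.1 : ℕ) : ℤ) + ((i.1.2 : ℕ) : ℤ)

include hQ in
theorem one_mem_SX_of_eX {i j : IX} (h : (eX (k := k)) i j ≠ 0) : (1 : K) ∈ W.SX i j := by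
  obtain ⟨hg, h1⟩ := eX_ne h
  have hd : ∀ c : Fin 2, ∃ s, pcc c c = some s := by decide
  rcases h1 with ⟨ha, hb, hc⟩ | ⟨ha, hb, hc⟩
  · obtain ⟨s', hs'⟩ := hd j.1.2
    have e1 : pcc i.1.1 j.1.1 = some Pc.R := by rw [ha, hb]; rfl
    have e2 : pcc i.1.2 j.1.2 = some s' := by rw [hc]; exact hs'
    rw [W.SX_some e1 e2, hg]
    exact W.one_mem_pc hQ _ _ (by simp) (by simp)
  · obtain ⟨s', hs'⟩ := hd j.1.1
    have e1 : pcc i.1.1 j.1.1 = some s' := by rw [ha]; exact hs'
    have e2 : pcc i.1.2 j.1.2 = some Pc.R := by rw [hb, hc]; rfl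
    rw [W.SX_some e1 e2, hg]
    exact W.one_mem_pc hQ _ _ (by simp) (by simp)

/-- the data of the dg algebra of the surface -/
def datX : MatDat k K IX where
  deg := degX
  e := eX
  e_deg i j h := by
    obtain ⟨-, h1⟩ := eX_ne h
    unfold degX
    rcases h1 with ⟨ha, hb, hc⟩ | ⟨ha, hb, hc⟩
    · rw [ha, hb, hc]
      norm_num
      ring
    · rw [ha, hb, hc]
      norm_num
  e_sq := eX_sq
  S := W.SX
  one_mem i := by
    have hd : ∀ c : Fin 2, ∃ s, pcc c c = some s := by decide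
    obtain ⟨s, hs⟩ := hd i.1.1
    obtain ⟨s', hs'⟩ := hd i.1.2
    rw [W.SX_some hs hs']
    exact W.one_mem_pc hQ _ _ (by simp) (by simp)
  mul_mem := W.SX_mul hQ
  e_mul i j l x h hx := by
    have := W.SX_mul hQ i j l 1 x (W.one_mem_SX_of_eX hQ h) hx
    rwa [one_mul] at this
  mul_e i j l x h hx := by
    have := W.SX_mul hQ i j l x 1 hx (W.one_mem_SX_of_eX hQ h)
    rwa [mul_one] at this

/-- the dg algebra of the surface -/
abbrev AX : ZDGA k := matZ (W.datX hQ)

end SurR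

end EK
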