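import Mathlib
import Pool.Agent.H36.EK.AX
import Pool.Agent.H9.NC.Coh
import Pool.Agent.H36.PX.Proper

/-!
# Proper : the cohomology of the dg algebra `AE` of the curve is finite dimensional
-/

set_option autoImplicit false

open NC
open scoped Kronecker

noncomputable section

namespace EK

open H36.NX

variable {q : ℕ} {k : Type} [Field k] {R : Type} [CommRing R] [Algebra k R]

namespace CurR

variable (C : CurR q k R)

/-- `span` of a set of basis vectors -/
def spB (s : Set (ℤ × Fin 2)) : Submodule k R := Submodule.span k (C.bas '' s)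

theorem spB_fin {s : Set (ℤ × Fin 2)} (hs : s.Finite) : FiniteDimensional k (C.spB s) :=
  FiniteDimensional.span_of_finite k (hs.image _)

theorem mem_spB {s : Set (ℤ × Fin 2)} (x : R) (h : ∀ p, p ∉ s → C.bas.repr x p = 0) :
    x ∈ C.spB s := by
  rw [← C.bas.linearCombination_repr x, Finsupp.linearCombination_apply, Finsupp.sum]
  refine Submodule.sum_mem _ fun p hp => Submodule.smul_mem _ _ (Submodule.subset_span ⟨p, ?_, rfl⟩)
  by_contra hc
  exact (Finsupp.mem_support_iff.1 hp) (h p hc)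

theorem fin_int (a b : ℤ) : {p : ℤ × Fin 2 | a ≤ p.1 ∧ p.1 ≤ b}.Finite := by
  refine ((Set.finite_Icc a b).prod (Set.finite_univ (α := Fin 2))).subset ?_
  rintro ⟨m, i⟩ ⟨h1, h2⟩
  exact ⟨⟨h1, h2⟩, trivial⟩

/-- global sections of `O(n)` -/
def BB (n : ℤ) : Submodule k R := C.pc Pc.X n ⊓ C.pc Pc.Y n

theorem fin_BB (n : ℤ) : FiniteDimensional k (C.BB n) := by
  have h : C.BB n ≤ C.spB {p | 0 ≤ p.1 ∧ p.1 ≤ n} := by
    intro x hx
    refine C.mem_spB x (fun p hp => ?_)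
    obtain ⟨m, i⟩ := p
    have h1 := (C.mem_pc_iff Pc.X n x).1 hx.1 m i
    have h2 := (C.mem_pc_iff Pc.Y n x).1 hx.2 m i
    by_contra hc
    refine hp ⟨?_, ?_⟩
    · by_contra h3
      exact hc (h1 (fun h4 => h3 h4))
    · by_contra h3
      refine hc (h2 (fun h4 => h3 ?_))
      have h5 : m + (q : ℤ) * ((i : ℕ) : ℤ) ≤ n := h4
      have h6 : 0 ≤ (q : ℤ) * ((i : ℕ) : ℤ) := by positivity
      change m ≤ n
      omega
  have hf := C.spB_fin (fin_int 0 n)
  exact Submodule.finiteDimensional_of_le h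

theorem exists_W (n : ℤ) : ∃ W : Submodule k R, FiniteDimensional k W ∧
    ∀ c : R, ∃ x ∈ C.pc Pc.X n, ∃ y ∈ C.pc Pc.Y n, ∃ w ∈ W, c = x + y + w := by
  refine ⟨C.spB {p | n - q ≤ p.1 ∧ p.1 ≤ 0}, C.spB_fin (fin_int _ _), fun c => ?_⟩
  have key : ∀ c : R, c ∈ C.pc Pc.X n ⊔ C.pc Pc.Y n ⊔ C.spB {p | n - q ≤ p.1 ∧ p.1 ≤ 0} := by
    intro c
    have hc : c ∈ Submodule.span k (Set.range C.bas) := by rw [C.bas.span_eq]; trivial
    refine (Submodule.span_le.2 ?_ : Submodule.span k (Set.range C.bas) ≤ _) hc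
    rintro _ ⟨⟨m, i⟩, rfl⟩
    by_cases h1 : idp q Pc.X n m i
    · exact Submodule.mem_sup_left (Submodule.mem_sup_left (C.bas_mem_pc _ _ _ _ h1))
    · by_cases h2 : idp q Pc.Y n m i
      · exact Submodule.mem_sup_left (Submodule.mem_sup_right (C.bas_mem_pc _ _ _ _ h2))
      · refine Submodule.mem_sup_right (Submodule.subset_span ⟨(m, i), ⟨?_, ?_⟩, rfl⟩)
        · have h3 : ¬ (m + (q : ℤ) * ((i : ℕ) : ℤ) ≤ n) := h2
          have h4 : (q : ℤ) * ((i : ℕ) : ℤ) ≤ q := by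
            have : ((i : ℕ) : ℤ) ≤ 1 := by exact_mod_cast (by omega : (i : ℕ) ≤ 1)
            nlinarith [Int.natCast_nonneg q]
          change n - q ≤ m
          omega
        · have h3 : ¬ ((0 : ℤ) ≤ m) := h1
          change m ≤ 0
          omega
  obtain ⟨z, hz, w, hw, e⟩ := Submodule.mem_sup.1 (key c)
  obtain ⟨x, hx, y, hy, e'⟩ := Submodule.mem_sup.1 hz
  exact ⟨x, hx, y, hy, w, hw, by rw [e', e]⟩

/-- the matrix with the blocks `a`, `b`, `c` -/
def blk (a b c : Matrix (Fin 2) (Fin 2) R) : Matrix (Fin 2 × Fin 2) (Fin 2 × Fin 2) R :=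
  fun i j => match i.1, j.1 with
    | 0, 0 => a i.2 j.2
    | 1, 1 => b i.2 j.2
    | 0, 1 => c i.2 j.2
    | 1, 0 => 0

theorem blk_mem {a b c : Matrix (Fin 2) (Fin 2) R} (ha : ∀ g h, a g h ∈ C.pc Pc.X (wt h - wt g))
    (hb : ∀ g h, b g h ∈ C.pc Pc.Y (wt h - wt g)) (i j : Fin 2 × Fin 2) :
    blk a b c i j ∈ C.SE i j := by
  obtain ⟨i1, i2⟩ := i
  obtain ⟨j1, j2⟩ := j
  fin_cases i1 <;> fin_cases j1
  · exact ha i2 j2
  · change c i2 j2 ∈ C.pc Pc.R 0
    trivial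
  · exact Submodule.zero_mem _
  · exact hb i2 j2

/-- the differential of `AE` on block matrices -/
theorem dM_blk (a b c : Matrix (Fin 2) (Fin 2) R) : C.datE.dM (blk a b c) = blk 0 0 (b - a) := by
  have he : ∀ i j, C.datE.eK i j = algebraMap k R ((e12 (k := k)) i.1 j.1 *
      (1 : Matrix (Fin 2) (Fin 2) k) i.2 j.2) := fun _ _ => rfl
  have hdeg : ∀ i, C.datE.deg i = ((i.1 : ℕ) : ℤ) := fun _ => rfl
  ext ⟨i1, i2⟩ ⟨j1, j2⟩
  rw [MatDat.dM_apply, Matrix.sub_apply, Matrix.mul_apply, Matrix.mul_apply, Fintype.sum_prod_type,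
    Fintype.sum_prod_type]
  simp only [Fin.sum_univ_two, MatDat.eM_apply, he, hdeg]
  fin_cases i1 <;> fin_cases j1 <;> fin_cases i2 <;> fin_cases j2 <;>
    simp [e12, blk, Matrix.one_apply]

theorem exists_blk (x : C.AE.V) : ∃ a b c : Matrix (Fin 2) (Fin 2) R,
    (∀ g h, a g h ∈ C.pc Pc.X (wt h - wt g)) ∧ (∀ g h, b g h ∈ C.pc Pc.Y (wt h - wt g)) ∧
      mv C.datE x = blk a b c := by
  refine ⟨fun g h => mv C.datE x (0, g) (0, h), fun g h => mv C.datE x (1, g) (1, h),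
    fun g h => mv C.datE x (0, g) (1, h), fun g h => mv_mem C.datE x (0, g) (0, h),
    fun g h => mv_mem C.datE x (1, g) (1, h), ?_⟩
  ext ⟨i1, i2⟩ ⟨j1, j2⟩
  fin_cases i1 <;> fin_cases j1
  · rfl
  · rfl
  · exact (Submodule.mem_bot k).1 (mv_mem C.datE x (1, i2) (0, j2))
  · rfl

/-- finitely many cocycles -/
def phiE (W : ℤ → Submodule k R) :
    ((∀ (g h : Fin 2), C.BB (wt h - wt g)) × (∀ (g h : Fin 2), W (wt h - wt g))) →ₗ[k]
      C.AE.V where
  toFun x := EK.mk C.datE (blk (fun g h => (x.1 g h : R)) (fun g h => (x.1 g h : R))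
    (fun g h => (x.2 g h : R))) (C.blk_mem (fun g h => (x.1 g h).2.1) (fun g h => (x.1 g h).2.2))
  map_add' x y := m_ext C.datE (by
    rw [map_add]
    ext ⟨i1, i2⟩ ⟨j1, j2⟩
    fin_cases i1 <;> fin_cases j1
    · rfl
    · rfl
    · change (0 : R) = 0 + 0
      rw [add_zero]
    · rfl)
  map_smul' c x := m_ext C.datE (by
    rw [map_smul, RingHom.id_apply]
    ext ⟨i1, i2⟩ ⟨j1, j2⟩
    fin_cases i1 <;> fin_cases j1
    · rfl
    · rfl
    · change (0 : R) = c • (0 : R)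
      rw [smul_zero]
    · rfl)

theorem finH_AE : C.AE.toSD.FinH := by
  choose W hWf hW using C.exists_W
  have hB := C.fin_BB
  have hF : FiniteDimensional k (LinearMap.range (C.phiE W)) := by
    have h2 : FiniteDimensional k (∀ (g h : Fin 2), C.BB (wt h - wt g)) := inferInstance
    have h3 : FiniteDimensional k (∀ (g h : Fin 2), W (wt h - wt g)) := inferInstance
    exact LinearMap.finiteDimensional_range _
  refine SD.FinH.of_subspace (LinearMap.range (C.phiE W)) hF fun x hx => ?_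
  obtain ⟨a, b, c, ha, hb, e⟩ := C.exists_blk x
  have h1 : blk 0 0 (b - a) = (0 : Matrix (Fin 2 × Fin 2) (Fin 2 × Fin 2) R) := by
    rw [← C.dM_blk a b c, ← e, ← mv_D]
    change mv C.datE (C.AE.D x) = 0
    have hx' : C.AE.D x = 0 := hx
    rw [hx', map_zero]
  have hab : b = a := by
    ext g h
    have := congrFun (congrFun h1 (0, g)) (1, h)
    exact sub_eq_zero.1 this
  subst hab
  choose xx hxx yy hyy w hw hc using fun (g h : Fin 2) => hW (wt h - wt g) (c g h)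
  refine ⟨C.phiE W (fun g h => ⟨b g h, ha g h, hb g h⟩, fun g h => ⟨w g h, hw g h⟩), ⟨_, rfl⟩, ?_⟩
  refine ⟨EK.mk C.datE (blk (fun g h => - xx g h) yy 0) (C.blk_mem (fun g h => Submodule.neg_mem _
    (hxx g h)) hyy), m_ext C.datE
      (Eq.trans (C.dM_blk (fun g h => - xx g h : Matrix (Fin 2) (Fin 2) R) yy 0) ?_)⟩
  rw [map_sub, e]
  ext ⟨i1, i2⟩ ⟨j1, j2⟩
  fin_cases i1 <;> fin_cases j1
  · exact (sub_self _).symm
  · change yy i2 j2 - - xx i2 j2 = c i2 j2 - w i2 j2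
    rw [hc i2 j2]
    ring
  · exact (sub_self _).symm
  · exact (sub_self _).symm

end CurR

end EK
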