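import Mathlib

/-!
# Wt : the polynomial `((x + y)^p - x^p - y^p) / p` and divided powers
-/

set_option autoImplicit false

open Finset Nat

noncomputable section

namespace EK

/-- the coefficient `(p choose i) / p` -/
def wc (p i : ℕ) : ℕ := p.choose i / p

theorem mul_wc {p i : ℕ} (hp : p.Prime) (h0 : 0 < i) (hi : i < p) : p * wc p i = p.choose i :=
  Nat.mul_div_cancel' (hp.dvd_choose_self h0.ne' hi)

theorem wc_last {p : ℕ} (hp : p.Prime) : wc p (p - 1) = 1 := by
  have h := mul_wc (i := p - 1) hp (by have := hp.two_le; omega) (by have := hp.two_le; omega)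
  have h1 : p.choose (p - 1) = p := by
    have h2 : p - 1 + 1 = p := by have := hp.two_le; omega
    have h3 := Nat.choose_succ_self_right (p - 1)
    rw [h2] at h3
    exact h3
  rw [h1] at h
  exact Nat.eq_of_mul_eq_mul_left hp.pos (by rw [h, mul_one])

/-- `((x + y)^p - x^p - y^p) / p` -/
def Wt (p : ℕ) {K : Type*} [CommRing K] (x y : K) : K :=
  ∑ i ∈ Ioo 0 p, (wc p i : K) * x ^ i * y ^ (p - i)

section

variable {K L : Type*} [CommRing K] [CommRing L] {p : ℕ}

theorem range_eq (n : ℕ) (hn : 0 < n) : range (n + 1) = insert 0 (insert n (Ioo 0 n)) := by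
  ext i
  simp only [mem_range, mem_insert, mem_Ioo]
  omega

theorem sum_split {M : Type*} [AddCommGroup M] (n : ℕ) (hn : 0 < n) (f : ℕ → M) :
    ∑ i ∈ range (n + 1), f i = f 0 + f n + ∑ i ∈ Ioo 0 n, f i := by
  rw [range_eq n hn, sum_insert, sum_insert, add_assoc]
  · simp
  · simp only [mem_insert, mem_Ioo]
    omega

theorem map_Wt (f : K →+* L) (x y : K) : f (Wt p x y) = Wt p (f x) (f y) := by
  unfold Wt
  rw [map_sum]
  refine sum_congr rfl fun i _ => ?_
  rw [map_mul, map_mul, map_pow, map_pow, map_natCast]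

theorem mul_Wt (hp : p.Prime) (x y : K) : (p : K) * Wt p x y = (x + y) ^ p - x ^ p - y ^ p := by
  rw [add_pow, sum_split p hp.pos]
  simp only [pow_zero, Nat.sub_zero, choose_zero_right, Nat.cast_one, mul_one, one_mul,
    Nat.sub_self, choose_self]
  unfold Wt
  rw [mul_sum]
  have h : ∀ i ∈ Ioo 0 p, (p : K) * ((wc p i : K) * x ^ i * y ^ (p - i)) =
      x ^ i * y ^ (p - i) * (p.choose i : K) := by
    intro i hi
    rw [mem_Ioo] at hi
    rw [← mul_wc hp hi.1 hi.2, Nat.cast_mul]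
    ring
  rw [sum_congr rfl h]
  ring

/-- the cocycle identity in the form needed for the surface -/
theorem Wt_key (hp : p.Prime) (x y d : K) :
    Wt p x y - Wt p (y - d) (x + d) = Wt p x d + Wt p y (-d) - Wt p d (-d) := by
  have key : ∀ X Y D : MvPolynomial (Fin 3) ℤ,
      Wt p X Y - Wt p (Y - D) (X + D) = Wt p X D + Wt p Y (-D) - Wt p D (-D) := by
    intro X Y D
    have hp0 : (p : MvPolynomial (Fin 3) ℤ) ≠ 0 := Nat.cast_ne_zero.2 hp.ne_zero
    refine mul_left_cancel₀ hp0 ?_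
    rw [mul_sub, mul_sub, mul_add, mul_Wt hp, mul_Wt hp, mul_Wt hp, mul_Wt hp, mul_Wt hp,
      add_neg_cancel, zero_pow hp.ne_zero]
    ring
  have h := congrArg (MvPolynomial.aeval (R := ℤ) ![x, y, d]).toRingHom
    (key (MvPolynomial.X 0) (MvPolynomial.X 1) (MvPolynomial.X 2))
  simp only [map_sub, map_add, map_Wt, map_neg] at h
  have e0 : (MvPolynomial.aeval (R := ℤ) ![x, y, d]).toRingHom (MvPolynomial.X 0) = x := by simp
  have e1 : (MvPolynomial.aeval (R := ℤ) ![x, y, d]).toRingHom (MvPolynomial.X 1) = y := by simp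
  have e2 : (MvPolynomial.aeval (R := ℤ) ![x, y, d]).toRingHom (MvPolynomial.X 2) = d := by simp
  rw [e0, e1, e2] at h
  exact h

theorem Wt_smul (c x y : K) : Wt p (c * x) (c * y) = c ^ p * Wt p x y := by
  unfold Wt
  rw [mul_sum]
  refine sum_congr rfl fun i hi => ?_
  rw [mem_Ioo] at hi
  have e : c ^ p = c ^ i * c ^ (p - i) := by
    rw [← pow_add]
    congr 1
    omega
  rw [mul_pow, mul_pow, e]
  ring

theorem Wt_pow (hp : p.Prime) [CharP K p] (x y : K) : Wt p (x ^ p) (y ^ p) = Wt p x y ^ p := by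
  have : Fact p.Prime := ⟨hp⟩
  unfold Wt
  rw [sum_pow_char]
  refine sum_congr rfl fun i _ => ?_
  have h : ((wc p i : ℕ) : K) ^ p = ((wc p i : ℕ) : K) := by
    have := map_natCast (frobenius K p) (wc p i)
    rwa [frobenius_def] at this
  rw [mul_pow, mul_pow, h, ← pow_mul, ← pow_mul, ← pow_mul, ← pow_mul, mul_comm p i,
    mul_comm p (p - i)]

end

section

variable {k : Type*} [Field k] {K : Type*} [CommRing K] [Algebra k K] {p : ℕ}

/-- divided power -/
def dp (k : Type*) [Field k] {K : Type*} [CommRing K] [Algebra k K] (n : ℕ) (x : K) : K :=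
  ((n ! : ℕ) : k)⁻¹ • x ^ n

theorem fac_ne (hp : p.Prime) [CharP k p] {n : ℕ} (hn : n < p) : ((n ! : ℕ) : k) ≠ 0 := by
  intro h
  rw [CharP.cast_eq_zero_iff k p, hp.dvd_factorial] at h
  omega

theorem dp_one (x : K) : dp k 1 x = x := by
  unfold dp
  rw [factorial_one, Nat.cast_one, inv_one, one_smul, pow_one]

theorem dp_add (hp : p.Prime) [CharP k p] {n : ℕ} (h0 : 0 < n) (hn : n < p) (x y : K) :
    ∑ i ∈ Ioo 0 n, dp k i x * dp k (n - i) y = dp k n (x + y) - dp k n x - dp k n y := by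
  have h1 : dp k n (x + y) = ((n ! : ℕ) : k)⁻¹ • ∑ i ∈ range (n + 1),
      x ^ i * y ^ (n - i) * (n.choose i : K) := by rw [dp, add_pow]
  rw [h1, sum_split n h0, smul_add, smul_add]
  have h2 : ∀ i ∈ Ioo 0 n, dp k i x * dp k (n - i) y =
      ((n ! : ℕ) : k)⁻¹ • (x ^ i * y ^ (n - i) * (n.choose i : K)) := by
    intro i hi
    rw [mem_Ioo] at hi
    have e : ((n ! : ℕ) : k)⁻¹ * ((n.choose i : ℕ) : k) =
        ((i ! : ℕ) : k)⁻¹ * (((n - i) ! : ℕ) : k)⁻¹ := by
      have h3 := Nat.choose_mul_factorial_mul_factorial hi.2.le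
      have h4 : ((n.choose i : ℕ) : k) * ((i ! : ℕ) : k) * (((n - i) ! : ℕ) : k) =
          ((n ! : ℕ) : k) := by
        rw [← Nat.cast_mul, ← Nat.cast_mul, h3]
      have a1 := fac_ne (k := k) hp hn
      have a2 := fac_ne (k := k) hp (n := i) (by omega)
      have a3 := fac_ne (k := k) hp (n := n - i) (by omega)
      field_simp
      rw [← h4]
    unfold dp
    rw [smul_mul_smul_comm, ← e, mul_smul]
    congr 1
    rw [Algebra.smul_def, map_natCast]
    ring
  rw [sum_congr rfl h2, ← smul_sum]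
  simp only [pow_zero, Nat.sub_zero, choose_zero_right, Nat.cast_one, mul_one, one_mul,
    Nat.sub_self, choose_self]
  unfold dp
  abel

theorem dp_top (hp : p.Prime) [CharP k p] (x y : K) :
    ∑ i ∈ Ioo 0 p, dp k i x * dp k (p - i) y = - Wt p x y := by
  have hw : (((p - 1)! : ℕ) : k) = -1 := by
    have : Fact p.Prime := ⟨hp⟩
    have h := ZMod.wilsons_lemma p
    have h1 : (((p - 1)! + 1 : ℕ) : ZMod p) = 0 := by
      rw [Nat.cast_add, h, Nat.cast_one, neg_add_cancel]
    rw [ZMod.natCast_eq_zero_iff] at h1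
    have h2 := (CharP.cast_eq_zero_iff k p _).2 h1
    rw [Nat.cast_add, Nat.cast_one] at h2
    exact eq_neg_of_add_eq_zero_left h2
  unfold Wt
  rw [← sum_neg_distrib]
  refine sum_congr rfl fun i hi => ?_
  rw [mem_Ioo] at hi
  have h3 := Nat.choose_mul_factorial_mul_factorial hi.2.le
  rw [← mul_wc hp hi.1 hi.2, ← Nat.mul_factorial_pred hp.ne_zero, mul_assoc, mul_assoc] at h3
  have h4 := Nat.eq_of_mul_eq_mul_left hp.pos h3
  have h5 : ((wc p i : ℕ) : k) * (((i ! : ℕ) : k) * (((p - i) ! : ℕ) : k)) = -1 := by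
    rw [← hw, ← h4]
    push_cast
    ring
  have a2 := fac_ne (k := k) hp (n := i) (by omega)
  have a3 := fac_ne (k := k) hp (n := p - i) (by omega)
  have e : ((i ! : ℕ) : k)⁻¹ * (((p - i) ! : ℕ) : k)⁻¹ = - ((wc p i : ℕ) : k) := by
    have : ((wc p i : ℕ) : k) = - (((i ! : ℕ) : k)⁻¹ * (((p - i) ! : ℕ) : k)⁻¹) := by
      field_simp
      rw [mul_assoc, h5]
    rw [this, neg_neg]
  unfold dp
  rw [smul_mul_smul_comm, e, neg_smul, Algebra.smul_def, map_natCast]
  ring

end

end EK
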