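import Pool.Agent.H36.EK.AX
import Pool.Agent.H36.EK.Wt

/-!
# Mas : the system `hh n` in the dg algebra of the surface

`hh n`, `0 < n < p`, of degree one, with `D (hh n) = ∑ hh i * hh (n - i)`, and
`mu = ∑ hh i * hh (p - i)`.
-/

set_option autoImplicit false

open NC Finset
open scoped Kronecker

noncomputable section

namespace EK

open H36.NX

variable {q : ℕ} {k : Type} [Field k] {R : Type} [CommRing R] [Algebra k R]
  {K : Type} [CommRing K] [Algebra k K]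

/-- the square with the entries `x0 : (0,0) → (1,0)`, `x1 : (0,1) → (1,1)`, `y0 : (0,0) → (0,1)`,
`y1 : (1,0) → (1,1)` -/
def sqM (x0 x1 y0 y1 : K) : Matrix (Fin 2 × Fin 2) (Fin 2 × Fin 2) K := fun i j =>
  if i = (0, 0) then (if j = (1, 0) then x0 else if j = (0, 1) then y0 else 0)
  else if j = (1, 1) then (if i = (0, 1) then x1 else if i = (1, 0) then y1 else 0)
  else 0

/-- the matrix with the entry `z : (0,0) → (1,1)` -/
def tpM (z : K) : Matrix (Fin 2 × Fin 2) (Fin 2 × Fin 2) K := fun i j =>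
  if i = (0, 0) ∧ j = (1, 1) then z else 0

theorem sqM_mul (x0 x1 y0 y1 x0' x1' y0' y1' : K) :
    sqM x0 x1 y0 y1 * sqM x0' x1' y0' y1' = tpM (x0 * y1' + y0 * x1') := by
  ext ⟨i1, i2⟩ ⟨j1, j2⟩
  rw [Matrix.mul_apply, Fintype.sum_prod_type]
  simp only [Fin.sum_univ_two]
  fin_cases i1 <;> fin_cases i2 <;> fin_cases j1 <;> fin_cases j2 <;> simp [sqM, tpM, add_comm]

theorem tpM_add (z z' : K) : tpM z + tpM z' = tpM (z + z') := by
  ext i j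
  rw [Matrix.add_apply]
  unfold tpM
  split_ifs
  · rfl
  · rw [add_zero]

theorem tpM_sum {I : Type} (s : Finset I) (f : I → K) : ∑ i ∈ s, tpM (f i) = tpM (∑ i ∈ s, f i) := by
  ext i j
  rw [Matrix.sum_apply]
  unfold tpM
  split_ifs
  · rfl
  · exact sum_const_zero

/-- one copy for each generator -/
def gen1 (x : Matrix (Fin 2 × Fin 2) (Fin 2 × Fin 2) K) :
    Matrix ((Fin 2 × Fin 2) × (Fin 2 × Fin 2)) ((Fin 2 × Fin 2) × (Fin 2 × Fin 2)) K :=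
  x ⊗ₖ (1 : Matrix (Fin 2 × Fin 2) (Fin 2 × Fin 2) K)

/-- the idempotent of the first generator -/
def id0 : Matrix (Fin 2 × Fin 2) (Fin 2 × Fin 2) K := fun i j => if i = 0 ∧ j = 0 then 1 else 0

theorem id0_id0 : (id0 (K := K)) * id0 = id0 := by
  ext i j
  rw [Matrix.mul_apply, Fintype.sum_eq_single 0]
  · unfold id0
    by_cases hi : i = 0 <;> by_cases hj : j = 0 <;> simp [hi, hj]
  · intro x hx
    unfold id0
    simp [hx]

/-- at the first generator -/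
def gen0 (x : Matrix (Fin 2 × Fin 2) (Fin 2 × Fin 2) K) :
    Matrix ((Fin 2 × Fin 2) × (Fin 2 × Fin 2)) ((Fin 2 × Fin 2) × (Fin 2 × Fin 2)) K :=
  x ⊗ₖ (id0 (K := K))

theorem gen0_mul (x y : Matrix (Fin 2 × Fin 2) (Fin 2 × Fin 2) K) :
    gen0 x * gen0 y = gen0 (x * y) := by
  unfold gen0
  rw [← Matrix.mul_kronecker_mul, id0_id0]

theorem gen1_mul_gen0 (x y : Matrix (Fin 2 × Fin 2) (Fin 2 × Fin 2) K) :
    gen1 x * gen0 y = gen0 (x * y) := by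
  unfold gen0 gen1
  rw [← Matrix.mul_kronecker_mul, one_mul]

theorem gen0_mul_gen1 (x y : Matrix (Fin 2 × Fin 2) (Fin 2 × Fin 2) K) :
    gen0 x * gen1 y = gen0 (x * y) := by
  unfold gen0 gen1
  rw [← Matrix.mul_kronecker_mul, mul_one]

theorem gen0_add (x y : Matrix (Fin 2 × Fin 2) (Fin 2 × Fin 2) K) :
    gen0 x + gen0 y = gen0 (x + y) := by
  unfold gen0
  rw [Matrix.add_kronecker]

theorem gen0_sum {I : Type} (s : Finset I) (f : I → Matrix (Fin 2 × Fin 2) (Fin 2 × Fin 2) K) :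
    ∑ i ∈ s, gen0 (f i) = gen0 (∑ i ∈ s, f i) := by
  classical
  induction s using Finset.induction_on with
  | empty =>
    rw [sum_empty, sum_empty]
    unfold gen0
    rw [Matrix.zero_kronecker]
  | insert a s ha ih => rw [sum_insert ha, sum_insert ha, ih, gen0_add]

theorem gen1_apply (x : Matrix (Fin 2 × Fin 2) (Fin 2 × Fin 2) K)
    (i j : (Fin 2 × Fin 2) × (Fin 2 × Fin 2)) :
    gen1 x i j = x i.1 j.1 * (1 : Matrix (Fin 2 × Fin 2) (Fin 2 × Fin 2) K) i.2 j.2 := rfl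

theorem gen0_apply (x : Matrix (Fin 2 × Fin 2) (Fin 2 × Fin 2) K)
    (i j : (Fin 2 × Fin 2) × (Fin 2 × Fin 2)) :
    gen0 x i j = x i.1 j.1 * (id0 (K := K)) i.2 j.2 := rfl

/-- the piece of a Čech index -/
def pcd (c : Fin 2) : Pc := if c = 0 then Pc.X else Pc.Y

theorem pcc_self (c : Fin 2) : pcc c c = some (pcd c) := by
  fin_cases c <;> rfl

namespace SurR

variable {C : CurR q k R} (W : SurR C K) {p : ℕ} (hQ : QP p q k)

theorem eK_eq : (W.datX hQ).eK = gen1 (sqM (1 : K) 1 1 (-1)) := by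
  ext ⟨⟨i1, i2⟩, i3⟩ ⟨⟨j1, j2⟩, j3⟩
  rw [MatDat.eK_apply, gen1_apply]
  have h : (W.datX hQ).e ((i1, i2), i3) ((j1, j2), j3) =
    ((e12 (k := k)) i1 j1 * (1 : Matrix (Fin 2) (Fin 2) k) i2 j2 +
      (epsM (k := k)) i1 j1 * (e12 (k := k)) i2 j2) *
        (1 : Matrix (Fin 2 × Fin 2) (Fin 2 × Fin 2) k) i3 j3 := rfl
  rw [h, map_mul]
  have h1 : algebraMap k K ((1 : Matrix (Fin 2 × Fin 2) (Fin 2 × Fin 2) k) i3 j3) =
      (1 : Matrix (Fin 2 × Fin 2) (Fin 2 × Fin 2) K) i3 j3 := by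
    rw [Matrix.one_apply, Matrix.one_apply]
    split_ifs
    · exact map_one _
    · exact map_zero _
  rw [h1]
  congr 1
  fin_cases i1 <;> fin_cases i2 <;> fin_cases j1 <;> fin_cases j2 <;> simp [sqM, e12, epsM]

theorem sq_gr (x0 x1 y0 y1 : K) : gen0 (sqM x0 x1 y0 y1) ∈ (W.datX hQ).grM 1 := by
  rintro ⟨⟨i1, i2⟩, i3⟩ ⟨⟨j1, j2⟩, j3⟩ h
  rw [gen0_apply]
  have h' : degX ((j1, j2), j3) - degX ((i1, i2), i3) ≠ 1 := h
  unfold degX at h'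
  fin_cases i1 <;> fin_cases i2 <;> fin_cases j1 <;> fin_cases j2 <;>
    first
      | (exfalso; apply h'; simp; done)
      | simp [sqM]

theorem dM_sq (x0 x1 y0 y1 : K) : (W.datX hQ).dM (gen0 (sqM x0 x1 y0 y1)) =
    gen0 (tpM (y1 + x1 - x0 + y0)) := by
  have h1 : (W.datX hQ).eM (gen0 (sqM x0 x1 y0 y1)) = - gen0 (sqM x0 x1 y0 y1) := by
    rw [MatDat.pM_eq, (W.datX hQ).pM_gr (W.sq_gr hQ x0 x1 y0 y1), if_neg (by decide), zero_add,
      zero_sub]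
  rw [MatDat.dM_apply, h1, neg_mul, sub_neg_eq_add, W.eK_eq, gen1_mul_gen0, gen0_mul_gen1, sqM_mul,
    sqM_mul, gen0_add, tpM_add]
  congr 2
  ring

theorem sq_mem {x0 x1 y0 y1 : K} (hx : x0 ∈ W.pc Pc.R Pc.X 0 0) (hx' : x1 ∈ W.pc Pc.R Pc.Y 0 0)
    (hy : y0 ∈ W.pc Pc.X Pc.R 0 0) (hy' : y1 ∈ W.pc Pc.Y Pc.R 0 0) (i j : IX) :
    gen0 (sqM x0 x1 y0 y1) i j ∈ (W.datX hQ).S i j := by
  rw [gen0_apply]
  unfold id0
  by_cases hg : i.2 = 0 ∧ j.2 = 0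
  · rw [if_pos hg, mul_one]
    obtain ⟨⟨i1, i2⟩, i3⟩ := i
    obtain ⟨⟨j1, j2⟩, j3⟩ := j
    obtain ⟨h3, h4⟩ := hg
    have h3' : i3 = 0 := h3
    have h4' : j3 = 0 := h4
    subst h3'
    subst h4'
    have hS : (W.datX hQ).S ((i1, i2), 0) ((j1, j2), 0) = W.SX ((i1, i2), 0) ((j1, j2), 0) := rfl
    rw [hS]
    unfold SX
    simp only [sub_self]
    fin_cases i1 <;> fin_cases i2 <;> fin_cases j1 <;> fin_cases j2 <;>
      simp [sqM, pcc, hx, hx', hy, hy']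
  · rw [if_neg hg, mul_zero]
    exact Submodule.zero_mem _

/-- the first component of the cocycle -/
def c1 (p : ℕ) (s' : Pc) : K := W.l C.h * W.tt Pc.Y s' ^ p

/-- the second component -/
def c2 (p : ℕ) (s : Pc) : K := - (W.tt s Pc.X * W.r C.h ^ p)

include hQ in
theorem c1_mem (s' : Pc) : W.c1 p s' ∈ W.pc Pc.R s' 0 0 := by
  have h1 := W.l_mem hQ Pc.R s' (m := 0) (n := 0) (x := C.h) trivial le_rfl
  have h2 := W.tt_mem_of_Le hQ (s := Pc.Y) (s' := s') (r := Pc.R) (r' := s') (Or.inr rfl) (Or.inl rfl)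
  have h3 := W.pc_mul_mem hQ Pc.R s' h1 (W.pc_pow_mem hQ Pc.R s' h2 p)
  rwa [add_zero] at h3

include hQ in
theorem c2_mem (s : Pc) : W.c2 p s ∈ W.pc s Pc.R 0 0 := by
  have h1 := W.r_mem hQ s Pc.R (m := 0) (n := 0) (y := C.h) le_rfl trivial
  have h2 := W.tt_mem_of_Le hQ (s := s) (s' := Pc.X) (r := s) (r' := Pc.R) (Or.inl rfl) (Or.inr rfl)
  have h3 := W.pc_mul_mem hQ s Pc.R h2 (W.pc_pow_mem hQ s Pc.R h1 p)
  rw [add_zero] at h3
  exact Submodule.neg_mem _ h3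

include hQ in
/-- the cocycle equation -/
theorem c_eq : W.c1 p Pc.X + W.c2 p Pc.Y = W.c2 p Pc.X + W.c1 p Pc.Y := by
  have := hQ.char
  have hp : Fact p.Prime := ⟨hQ.prime⟩
  rcases subsingleton_or_nontrivial K with hK | hK
  · exact Subsingleton.elim _ _
  have : CharP K p := charP_of_injective_algebraMap (algebraMap k K).injective p
  have h1 : W.tt Pc.Y Pc.Y = W.tt Pc.Y Pc.X + W.r C.h := by
    unfold tt
    ring
  have h2 : W.tt Pc.X Pc.X = W.tt Pc.Y Pc.X + W.l C.h := by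
    unfold tt
    ring
  unfold c1 c2
  rw [h1, h2, add_pow_char]
  ring

include hQ in
theorem dp_mem (s s' : Pc) {x : K} (hx : x ∈ W.pc s s' 0 0) (n : ℕ) : dp k n x ∈ W.pc s s' 0 0 :=
  Submodule.smul_mem _ _ (W.pc_pow_mem hQ s s' hx n)

/-- the elements `hh n` -/
def hh (n : ℕ) : (W.AX hQ).V :=
  EK.mk (W.datX hQ) (gen0 (sqM (- dp k n (W.c1 p Pc.X)) (- dp k n (W.c1 p Pc.Y))
      (- dp k n (W.c2 p Pc.X)) (dp k n (W.c2 p Pc.Y))))
    (W.sq_mem hQ (Submodule.neg_mem _ (W.dp_mem hQ _ _ (W.c1_mem hQ _) n))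
      (Submodule.neg_mem _ (W.dp_mem hQ _ _ (W.c1_mem hQ _) n))
      (Submodule.neg_mem _ (W.dp_mem hQ _ _ (W.c2_mem hQ _) n))
      (W.dp_mem hQ _ _ (W.c2_mem hQ _) n))

theorem mv_hh (n : ℕ) : mv (W.datX hQ) (W.hh hQ n) = gen0 (sqM (- dp k n (W.c1 p Pc.X))
    (- dp k n (W.c1 p Pc.Y)) (- dp k n (W.c2 p Pc.X)) (dp k n (W.c2 p Pc.Y))) := rfl

theorem hh_gr (n : ℕ) : W.hh hQ n ∈ (W.AX hQ).gr 1 := W.sq_gr hQ _ _ _ _

theorem mv_hh_mul (i j : ℕ) : mv (W.datX hQ) (W.hh hQ i * W.hh hQ j) =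
    gen0 (tpM (- (dp k i (W.c1 p Pc.X) * dp k j (W.c2 p Pc.Y)) +
      dp k i (W.c2 p Pc.X) * dp k j (W.c1 p Pc.Y))) := by
  rw [mv_mul', mv_hh, mv_hh, gen0_mul, sqM_mul]
  congr 2
  ring

theorem mv_sum (n : ℕ) : mv (W.datX hQ) (∑ i ∈ Ioo 0 n, W.hh hQ i * W.hh hQ (n - i)) =
    gen0 (tpM (- (∑ i ∈ Ioo 0 n, dp k i (W.c1 p Pc.X) * dp k (n - i) (W.c2 p Pc.Y)) +
      ∑ i ∈ Ioo 0 n, dp k i (W.c2 p Pc.X) * dp k (n - i) (W.c1 p Pc.Y))) := by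
  rw [map_sum, sum_congr rfl fun i _ => W.mv_hh_mul hQ i (n - i), gen0_sum, tpM_sum]
  congr 2
  rw [sum_add_distrib, sum_neg_distrib]

/-- **the system** -/
theorem D_hh {n : ℕ} (h0 : 0 < n) (hn : n < p) :
    (W.AX hQ).D (W.hh hQ n) = ∑ i ∈ Ioo 0 n, W.hh hQ i * W.hh hQ (n - i) := by
  have := hQ.char
  refine m_ext (W.datX hQ) ?_
  rw [mv_sum, mv_D, mv_hh, W.dM_sq hQ, dp_add hQ.prime h0 hn, dp_add hQ.prime h0 hn, W.c_eq hQ]
  congr 2
  ring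

/-- the cocycle `mu` -/
def muX : (W.AX hQ).V := ∑ i ∈ Ioo 0 p, W.hh hQ i * W.hh hQ (p - i)

theorem mv_muX : mv (W.datX hQ) (W.muX hQ) = gen0 (tpM (Wt p (W.c1 p Pc.X) (W.c2 p Pc.Y) -
    Wt p (W.c2 p Pc.X) (W.c1 p Pc.Y))) := by
  have := hQ.char
  unfold muX
  rw [mv_sum, dp_top hQ.prime, dp_top hQ.prime]
  congr 2
  ring

theorem muX_gr : W.muX hQ ∈ (W.AX hQ).gr 2 := by
  unfold muX
  refine Submodule.sum_mem _ fun i _ => ?_
  exact (W.AX hQ).mul_gr _ _ _ (W.hh_gr hQ i) _ (W.hh_gr hQ (p - i))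

/-- the entries of `mu` -/
theorem muX_entry : ∑ g, mv (W.datX hQ) (W.muX hQ) ((0, 0), g) ((1, 1), g) =
    Wt p (W.c1 p Pc.X) (W.c2 p Pc.Y) - Wt p (W.c2 p Pc.X) (W.c1 p Pc.Y) := by
  have h : ∀ g : Fin 2 × Fin 2, mv (W.datX hQ) (W.muX hQ) ((0, 0), g) ((1, 1), g) =
      if g = 0 then Wt p (W.c1 p Pc.X) (W.c2 p Pc.Y) - Wt p (W.c2 p Pc.X) (W.c1 p Pc.Y) else 0 := by
    intro g
    rw [mv_muX, gen0_apply]
    by_cases hg : g = 0 <;> simp [tpM, id0, hg]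
  rw [Finset.sum_congr rfl fun g _ => h g, Finset.sum_ite_eq' Finset.univ (0 : Fin 2 × Fin 2),
    if_pos (Finset.mem_univ _)]

include hQ in
/-- the formula for `mu`, with `τ = t - h`, `h = l h`, `h* = r h` -/
theorem muX_formula : Wt p (W.c1 p Pc.X) (W.c2 p Pc.Y) - Wt p (W.c2 p Pc.X) (W.c1 p Pc.Y) =
    W.l C.h ^ p * Wt p (W.tt Pc.Y Pc.X) (W.r C.h) ^ p +
      (- W.r C.h ^ p) ^ p * Wt p (W.tt Pc.Y Pc.X) (W.l C.h) -
        (W.l C.h * W.r C.h ^ p) ^ p * Wt p 1 (-1) := by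
  have := hQ.char
  have hp : Fact p.Prime := ⟨hQ.prime⟩
  rcases subsingleton_or_nontrivial K with hK | hK
  · exact Subsingleton.elim _ _
  have : CharP K p := charP_of_injective_algebraMap (algebraMap k K).injective p
  have h1 : W.tt Pc.Y Pc.Y = W.tt Pc.Y Pc.X + W.r C.h := by
    unfold tt
    ring
  have h2 : W.tt Pc.X Pc.X = W.tt Pc.Y Pc.X + W.l C.h := by
    unfold tt
    ring
  have e1 : W.c2 p Pc.X = W.c2 p Pc.Y - W.l C.h * W.r C.h ^ p := by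
    unfold c2
    rw [h2]
    ring
  have e2 : W.c1 p Pc.Y = W.c1 p Pc.X + W.l C.h * W.r C.h ^ p := by
    unfold c1
    rw [h1, add_pow_char]
    ring
  rw [e1, e2, Wt_key hQ.prime]
  congr 2
  · unfold c1
    rw [Wt_smul, Wt_pow hQ.prime]
  · have e3 : W.c2 p Pc.Y = (- W.r C.h ^ p) * W.tt Pc.Y Pc.X := by
      unfold c2
      ring
    have e4 : - (W.l C.h * W.r C.h ^ p) = (- W.r C.h ^ p) * W.l C.h := by ring
    rw [e3, e4, Wt_smul]
  · have e5 : Wt p (W.l C.h * W.r C.h ^ p) (- (W.l C.h * W.r C.h ^ p)) =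
        Wt p (W.l C.h * W.r C.h ^ p * 1) (W.l C.h * W.r C.h ^ p * (-1)) := by
      rw [mul_one, mul_neg_one]
    rw [e5, Wt_smul]

end SurR

end EK
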