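import Pool.Agent.H9.NC.Coh

/-!
# Filt : a finite filtration whose graded pieces have finite dimensional homology
-/

set_option autoImplicit false

open NC

noncomputable section

namespace EK

variable {k : Type} [Field k] {B N : SD k}

theorem finH_of_filt (hB : B.FinH) (q : ℕ) (U : ℕ → Submodule k N.V) (j : ℕ → B.V →ₗ[k] N.V)
    (h0 : U 0 = ⊥) (hq : U q = ⊤) (hle : ∀ n < q, U n ≤ U (n + 1))
    (h1 : ∀ n < q, ∀ b, j n b ∈ U (n + 1)) (h2 : ∀ n < q, ∀ x ∈ U (n + 1), ∃ b, x - j n b ∈ U n)
    (h3 : ∀ n < q, ∀ b, N.D (j n b) - j n (B.D b) ∈ U n)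
    (h4 : ∀ n < q, ∀ b, j n b ∈ U n → b = 0) : N.FinH := by
  obtain ⟨F, hF, hcyc⟩ := hB.exists_subspace
  have key : ∀ n ≤ q, (∀ x ∈ U n, N.D x ∈ U n) ∧ ∃ G : Submodule k N.V, FiniteDimensional k G ∧
      ∀ x ∈ U n, N.D x = 0 → ∃ y ∈ G, ∃ z ∈ U n, x = y + N.D z := by
    intro n
    induction n with
    | zero =>
      intro _
      rw [h0]
      refine ⟨fun x hx => ?_, ⊥, inferInstance, fun x hx _ => ⟨0, Submodule.zero_mem _, 0, Submodule.zero_mem _, ?_⟩⟩
      · rw [(Submodule.mem_bot k).1 hx, map_zero]
        exact Submodule.zero_mem _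
      · rw [(Submodule.mem_bot k).1 hx, map_zero, add_zero]
    | succ n ih =>
      intro hn
      obtain ⟨hD, G, hG, hGc⟩ := ih (by omega)
      have hDS : ∀ x ∈ U (n + 1), N.D x ∈ U (n + 1) := by
        intro x hx
        obtain ⟨b, hb⟩ := h2 n (by omega) x hx
        have e : N.D x = N.D (x - j n b) + (N.D (j n b) - j n (B.D b)) + j n (B.D b) := by
          rw [map_sub]; abel
        rw [e]
        exact Submodule.add_mem _ (Submodule.add_mem _ (hle n (by omega) (hD _ hb))
          (hle n (by omega) (h3 n (by omega) b))) (h1 n (by omega) _)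
      refine ⟨hDS, ?_⟩
      -- the classes in `F` that lift to cycles
      let V : Submodule k B.V :=
        { carrier := {b | b ∈ F ∧ ∃ x' ∈ U n, N.D (j n b + x') = 0}
          add_mem' := by
            rintro b b' ⟨hb, x, hx, hx0⟩ ⟨hb', x', hx', hx0'⟩
            refine ⟨F.add_mem hb hb', x + x', Submodule.add_mem _ hx hx', ?_⟩
            have e : j n (b + b') + (x + x') = (j n b + x) + (j n b' + x') := by
              rw [map_add]; abel
            rw [e, map_add, hx0, hx0', add_zero]
          zero_mem' := ⟨F.zero_mem, 0, Submodule.zero_mem _, by rw [map_zero, add_zero, map_zero]⟩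
          smul_mem' := by
            rintro c b ⟨hb, x, hx, hx0⟩
            refine ⟨F.smul_mem c hb, c • x, Submodule.smul_mem _ c hx, ?_⟩
            rw [map_smul, ← smul_add, map_smul, hx0, smul_zero] }
      have hVF : V ≤ F := fun b hb => hb.1
      have hV : FiniteDimensional k V := Submodule.finiteDimensional_of_le hVF
      let bs := Module.finBasis k V
      choose xs hxs hxs0 using fun i => (bs i).2.2
      let σ : V →ₗ[k] N.V := bs.constr k (fun i => j n (bs i : B.V) + xs i)
      have hσ : ∀ v : V, N.D (σ v) = 0 ∧ σ v - j n v ∈ U n := by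
        intro v
        have e : ∀ v : V, σ v - j n v = (bs.constr k (fun i => xs i) : V →ₗ[k] N.V) v := by
          intro v
          have : σ - (j n) ∘ₗ V.subtype = (bs.constr k (fun i => xs i) : V →ₗ[k] N.V) := by
            refine bs.ext fun i => ?_
            rw [LinearMap.sub_apply, LinearMap.comp_apply, Module.Basis.constr_basis,
              Module.Basis.constr_basis, Submodule.subtype_apply, add_sub_cancel_left]
          exact LinearMap.congr_fun this v
        constructor
        · have : N.D ∘ₗ σ = 0 := by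
            refine bs.ext fun i => ?_
            rw [LinearMap.comp_apply, Module.Basis.constr_basis, hxs0, LinearMap.zero_apply]
          exact LinearMap.congr_fun this v
        · rw [e, Module.Basis.constr_apply]
          refine Submodule.sum_mem _ fun i _ => Submodule.smul_mem _ _ (hxs i)
      refine ⟨LinearMap.range σ ⊔ G, inferInstance, fun x hx hx0 => ?_⟩
      obtain ⟨b, hb⟩ := h2 n (by omega) x hx
      have hDb : B.D b = 0 := by
        refine h4 n (by omega) _ ?_
        have e : j n (B.D b) = -(N.D (x - j n b)) - (N.D (j n b) - j n (B.D b)) := by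
          rw [map_sub, hx0]; abel
        rw [e]
        exact Submodule.sub_mem _ (Submodule.neg_mem _ (hD _ hb)) (h3 n (by omega) b)
      obtain ⟨y, hy, z, hz⟩ := hcyc b hDb
      -- `b = y + D z`
      have hbz : b = y + B.D z := by rw [hz]; abel
      have hx1 : x - N.D (j n z) - j n y ∈ U n := by
        have e : x - N.D (j n z) - j n y = (x - j n b) - (N.D (j n z) - j n (B.D z)) := by
          rw [hbz, map_add]; abel
        rw [e]
        exact Submodule.sub_mem _ hb (h3 n (by omega) z)
      have hyV : y ∈ V := ⟨hy, x - N.D (j n z) - j n y, hx1, by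
        have e : j n y + (x - N.D (j n z) - j n y) = x - N.D (j n z) := by abel
        rw [e, map_sub, hx0, N.DD, sub_zero]⟩
      obtain ⟨hs1, hs2⟩ := hσ ⟨y, hyV⟩
      have hx2 : x - N.D (j n z) - σ ⟨y, hyV⟩ ∈ U n := by
        have e : x - N.D (j n z) - σ ⟨y, hyV⟩ =
            (x - N.D (j n z) - j n y) - (σ ⟨y, hyV⟩ - j n y) := by abel
        rw [e]
        exact Submodule.sub_mem _ hx1 hs2
      obtain ⟨y', hy', z', hz', e'⟩ := hGc _ hx2 (by
        rw [map_sub, map_sub, hx0, N.DD, hs1, sub_zero, sub_zero])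
      refine ⟨σ ⟨y, hyV⟩ + y', Submodule.add_mem _ (Submodule.mem_sup_left ⟨_, rfl⟩)
        (Submodule.mem_sup_right hy'), j n z + z', Submodule.add_mem _ (h1 n (by omega) z)
          (hle n (by omega) hz'), ?_⟩
      rw [map_add]
      have : x = (x - N.D (j n z) - σ ⟨y, hyV⟩) + N.D (j n z) + σ ⟨y, hyV⟩ := by abel
      rw [this, e']
      abel
  obtain ⟨-, G, hG, hGc⟩ := key q le_rfl
  refine SD.FinH.of_subspace G hG fun x hx0 => ?_
  obtain ⟨y, hy, z, -, e⟩ := hGc x (by rw [hq]; trivial) hx0
  exact ⟨y, hy, z, by rw [e]; abel⟩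

end EK
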