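import Pool.Agent.H36.EK.Mas
import Pool.Agent.H21.EK.COut
import Pool.Agent.H8.MC.Out

/-!
# Bet : the Bockstein operator of the surface is not zero
-/

set_option autoImplicit false

open NC NC.BK

noncomputable section

namespace EK

variable {q : ℕ} {k : Type} [Field k] {R : Type} [CommRing R] [Algebra k R]
  {K : Type} [CommRing K] [Algebra k K]

namespace SurR

variable {C : CurR q k R} (W : SurR C K) {p : ℕ} (hQ : QP p q k)

theorem exists_beta {S : Type} [CommRing S] (c : Car p k S) (Bk : Bock c)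
    (hZ : ∀ (m : ℤ) (X : ℤ → NC.BK.W S (H8.MC.lft p c).B), X ∈ (H8.MC.lft p c).sc.Per m →
      (∀ q, red c ((H8.MC.lft p c).sc.D X q) = 0) →
        (H8.MC.lft p c).toA X ∈ (H8.MC.C k p).cyc.Z Set.univ m)
    {lam : K →ₗ[k] k} (hlam : W.Kills lam)
    (hmu : lam (∑ g, mv (W.datX hQ) (W.muX hQ) ((0, 0), g) ((1, 1), g)) ≠ 0) :
    ∃ y : (W.AX hQ).HP (-1), Bk.β (W.AX hQ) (-1) y ≠ 0 := by
  obtain ⟨y, P, hP, h1, h2, h3⟩ := H8.MC.B_out' c hQ.prime.pos Bk hZ (W.AX hQ) (W.hh hQ)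
    (fun n _ _ => W.hh_gr hQ n) (fun n h0 hn => W.D_hh hQ h0 hn)
  refine ⟨y, ?_⟩
  rw [h1]
  exact W.C_out hQ hlam (W.muX_gr hQ) hP h2 h3 hmu

end SurR

end EK
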