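import Pool.Agent.H94.PB.Fin
import Pool.Agent.H94.NC.LefM
import Pool.Agent.H28.NC.PFin

/-!
# Pub : the public statement from the perfect diagonal and finite cohomology
-/

set_option autoImplicit false

open NC KPub

noncomputable section

namespace EK

variable {k : Type} [Field k]

theorem pub (A : ZDGA k) (hPF : PF A.toDGA (BMod.diag A.toDGA)) (hfin : A.toSD.FinH)
    (hext : ∀ (F : Type) [Field F] [Algebra k F],
      ¬ A.AlgExt F A.piPlus ∧ ¬ A.AlgExt F A.piMinus) :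
    ∃ (A : Type) (_ : Ring A) (_ : Algebra k A) (g : ℤ → Submodule k A) (d : A →ₗ[k] A),
      IsDGA k A g d ∧ IsSaturated k A g d ∧
      (∀ m, ∃ (H : Type) (_ : AddCommGroup H) (_ : Module k H)
        (q : (ℤ → MonoidAlgebra k (List (ℤ × A))) →ₗ[k] H), IsHP k A g d m H q) ∧
      ∀ (H₀ : Type) [AddCommGroup H₀] [Module k H₀]
        (q₀ : (ℤ → MonoidAlgebra k (List (ℤ × A))) →ₗ[k] H₀)
        (H₁ : Type) [AddCommGroup H₁] [Module k H₁]
        (q₁ : (ℤ → MonoidAlgebra k (List (ℤ × A))) →ₗ[k] H₁),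
        IsHP k A g d 0 H₀ q₀ → IsHP k A g d 1 H₁ q₁ →
        (∀ (M : Type) [AddCommGroup M] [Module k M] (gM : ℤ → Submodule k M)
          (dM : M →ₗ[k] M) (l : A → M → M) (r : M → A → M),
          IsCorr k A g d M gM dM l r → ∃! φ, Induces k A g d M gM dM l r H₀ q₀ H₁ q₁ φ) ∧
        (∀ (F E : Type) [Field F] [Field E] [Algebra F E] [Algebra k E],
          ¬ IsAlg k A g d H₀ q₀ H₁ q₁ F E (LinearMap.inl k H₀ H₁ ∘ₗ LinearMap.fst k H₀ H₁) ∧
          ¬ IsAlg k A g d H₀ q₀ H₁ q₁ F E (LinearMap.inr k H₀ H₁ ∘ₗ LinearMap.snd k H₀ H₁)) :=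
  public_of ⟨NC.perfect_of_PF A hPF, SD.coh_finite_iff.2 hfin⟩
    (fun M hM => HPs_bij M.iM (M.iM_HT_bij hM)) hext

end EK
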